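import Pool.Agent.Lib.MP_610fe3_an.H6.Ext

/-!
# Double pinching: every stable set meets every unstable set
-/

open Set Filter Function
open scoped Topology

namespace Pool.Agent.Lib.MP610fe3.H6

open Cf

/-! ### Two numerical lemmas -/

theorem close_loop {P Q : ℕ → Prop} {a b c : ℝ} (ha : 0 ≤ a) (hb : 0 ≤ b) (hc : 0 ≤ c)
    (hab : a * b < 1) (hP : ∃ N, P N) (hPQ : ∀ N N' : ℕ, P N → a * N + c ≤ N' → Q N')
    (hQP : ∀ N' N : ℕ, Q N' → b * N' + c ≤ N → P N) (hmono : ∀ N N', N ≤ N' → P N → P N')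
    {N₀ : ℕ} (hN₀ : (b * (c + 1) + c + 1) / (1 - a * b) ≤ N₀) : P N₀ := by
  classical
  set N := Nat.find hP with hN
  have hPN : P N := Nat.find_spec hP
  set N' : ℕ := ⌈a * N + c⌉₊ with hN'
  have hQ : Q N' := hPQ N N' hPN (Nat.le_ceil _)
  set N'' : ℕ := ⌈b * N' + c⌉₊ with hN''
  have hP'' : P N'' := hQP N' N'' hQ (Nat.le_ceil _)
  have h1 : N ≤ N'' := Nat.find_min' hP hP''
  have h2 : (N' : ℝ) < a * N + c + 1 := Nat.ceil_lt_add_one (by positivity)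
  have h3 : (N'' : ℝ) < b * N' + c + 1 := Nat.ceil_lt_add_one (by positivity)
  have h4 : (N : ℝ) ≤ N'' := by exact_mod_cast h1
  have h5 : b * (N' : ℝ) ≤ b * (a * N + c + 1) := mul_le_mul_of_nonneg_left h2.le hb
  have h6 : (N : ℝ) * (1 - a * b) ≤ b * (c + 1) + c + 1 := by nlinarith
  have h7 : (N : ℝ) ≤ (b * (c + 1) + c + 1) / (1 - a * b) := by
    rw [le_div_iff₀ (by linarith)]
    exact h6
  have h8 : (N : ℝ) ≤ N₀ := h7.trans hN₀
  exact hmono N N₀ (by exact_mod_cast h8) hPN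

theorem num_bound {ε C Λ a B c : ℝ} (hε : 0 < ε) (hC : 1 ≤ C) (ha : 0 ≤ a)
    (hB : 0 < B) (hc : (Λ / ε + 1) * (3 * C) ≤ Real.exp (B * c)) {N N' n : ℕ}
    (hN : a * N + c ≤ N') (hn : N' ≤ n) :
    (Λ * Real.exp ((1 + a) * B) ^ N / ε + 1) * (3 * ε * C) * Real.exp (-B) ^ (N + n) ≤ ε := by
  set x : ℝ := Real.exp ((1 + a) * B) ^ N with hx
  have hx1 : 1 ≤ x := one_le_pow₀ (Real.one_le_exp (by positivity))
  have h1 : Λ * x / ε + 1 ≤ (Λ / ε + 1) * x := by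
    have : Λ * x / ε = Λ / ε * x := by ring
    rw [this]
    linarith
  have hy : 0 < Real.exp (-B) ^ (N + n) := by positivity
  have hnR : (N' : ℝ) ≤ n := by exact_mod_cast hn
  calc (Λ * x / ε + 1) * (3 * ε * C) * Real.exp (-B) ^ (N + n)
      ≤ ((Λ / ε + 1) * x) * (3 * ε * C) * Real.exp (-B) ^ (N + n) := by gcongr
    _ = ε * (((Λ / ε + 1) * (3 * C)) * (x * Real.exp (-B) ^ (N + n))) := by ring
    _ ≤ ε * (Real.exp (B * c) * (x * Real.exp (-B) ^ (N + n))) := by gcongr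
    _ = ε * Real.exp (B * (c + a * N - n)) := by
        rw [hx, ← Real.exp_nat_mul, ← Real.exp_nat_mul, ← Real.exp_add, ← Real.exp_add]
        congr 2
        push_cast
        ring
    _ ≤ ε * 1 := by
        gcongr
        rw [Real.exp_le_one_iff]
        apply mul_nonpos_of_nonneg_of_nonpos hB.le
        linarith
    _ = ε := mul_one ε

theorem exists_const (B C₀ : ℝ) (hB : 0 < B) (hC₀ : 1 ≤ C₀) :
    ∃ c : ℝ, 0 ≤ c ∧ C₀ ≤ Real.exp (B * c) := by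
  refine ⟨Real.log C₀ / B, div_nonneg (Real.log_nonneg hC₀) hB.le, ?_⟩
  rw [mul_div_cancel₀ _ hB.ne', Real.exp_log (by linarith)]

variable {M : Type*} [MetricSpace M] {f : M ≃ₜ M}

/-! ### The a priori bound -/

/-- The size of rectangles with given left and bottom sides is bounded. -/
theorem rect_bound {ε₀ C A B a b ε : ℝ} (hA : 0 < A) (hB : 0 < B) (ha : 0 ≤ a) (hb : 0 ≤ b)
    (hab : a * b < 1) (hD : Dec f ε₀ C (Real.exp (-A))) (hD' : Dec f.symm ε₀ C (Real.exp (-B)))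
    (hε : 0 < ε) (hε₀ : 3 * C * ε < ε₀) {x σ : ℝ → M} {Λ Λ' : ℝ} (hΛ : 0 ≤ Λ) (hΛ' : 0 ≤ Λ')
    (hx : ∀ n : ℕ, ∀ t ∈ Icc (0 : ℝ) 1, ∀ t' ∈ Icc (0 : ℝ) 1,
      dist (f^[n] (x t)) (f^[n] (x t')) ≤ Λ * Real.exp ((1 + a) * B) ^ n * |t - t'|)
    (hσ : ∀ n : ℕ, ∀ t ∈ Icc (0 : ℝ) 1, ∀ t' ∈ Icc (0 : ℝ) 1,
      dist (f.symm^[n] (σ t)) (f.symm^[n] (σ t')) ≤ Λ' * Real.exp ((1 + b) * A) ^ n * |t - t'|) :
    ∃ N₀ : ℕ, ∀ (T : ℝ) (R : ℝ × ℝ → M), 0 ≤ T → T ≤ 1 → Rct f ε R 1 T →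
      (∀ s ∈ Icc (0 : ℝ) 1, R (s, 0) = σ s) → (∀ t ∈ Icc (0 : ℝ) T, R (0, t) = x t) →
      ∀ n ≥ N₀, ∀ t ∈ Icc (0 : ℝ) T, ∀ s ∈ Icc (0 : ℝ) 1, ∀ s' ∈ Icc (0 : ℝ) 1,
        dist (f^[n] (R (s, t))) (f^[n] (R (s', t))) ≤ ε := by
  have hC := hD.one_le
  obtain ⟨c₁, hc₁, h₁⟩ := exists_const B ((Λ / ε + 1) * (3 * C)) hB (by
    have : 0 ≤ Λ / ε := by positivity
    nlinarith)
  obtain ⟨c₂, hc₂, h₂⟩ := exists_const A ((Λ' / ε + 1) * (3 * C)) hA (by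
    have : 0 ≤ Λ' / ε := by positivity
    nlinarith)
  set c : ℝ := max c₁ c₂ with hc
  have hc0 : 0 ≤ c := hc₁.trans (le_max_left _ _)
  have h₁' : (Λ / ε + 1) * (3 * C) ≤ Real.exp (B * c) :=
    h₁.trans (Real.exp_le_exp.2 (mul_le_mul_of_nonneg_left (le_max_left _ _) hB.le))
  have h₂' : (Λ' / ε + 1) * (3 * C) ≤ Real.exp (A * c) :=
    h₂.trans (Real.exp_le_exp.2 (mul_le_mul_of_nonneg_left (le_max_right _ _) hA.le))
  refine ⟨⌈(b * (c + 1) + c + 1) / (1 - a * b)⌉₊, fun T R hT hT1 hR hl hbo => ?_⟩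
  set P : ℕ → Prop := fun N => ∀ n ≥ N, ∀ t ∈ Icc (0 : ℝ) T, ∀ s ∈ Icc (0 : ℝ) 1,
    ∀ s' ∈ Icc (0 : ℝ) 1, dist (f^[n] (R (s, t))) (f^[n] (R (s', t))) ≤ ε with hP
  set Q : ℕ → Prop := fun N => ∀ n ≥ N, ∀ s ∈ Icc (0 : ℝ) 1, ∀ t ∈ Icc (0 : ℝ) T,
    ∀ t' ∈ Icc (0 : ℝ) T, dist (f.symm^[n] (R (s, t))) (f.symm^[n] (R (s, t'))) ≤ ε with hQ
  have hPQ : ∀ N N' : ℕ, P N → a * N + c ≤ N' → Q N' := by
    intro N N' hN hNN n hn s hs t ht t' ht'
    refine (hR.hor_le hD' hε hε₀ zero_le_one hT1 hΛ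
      (Real.exp_pos ((1 + a) * B)).le ?_ (N := N)
      (fun t ht s hs s' hs' => hN N le_rfl t ht s hs s' hs') n hs ht ht').trans ?_
    · intro m t ht t' ht'
      rw [hbo t ht, hbo t' ht']
      exact hx m t ⟨ht.1, ht.2.trans hT1⟩ t' ⟨ht'.1, ht'.2.trans hT1⟩
    · exact num_bound hε hC ha hB h₁' hNN hn
  have hQP : ∀ N' N : ℕ, Q N' → b * N' + c ≤ N → P N := by
    intro N N' hN hNN n hn t ht s hs s' hs'
    refine (hR.swap.hor_le (f := f.symm) hD hε hε₀ hT le_rfl hΛ'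
      (Real.exp_pos ((1 + b) * A)).le ?_ (N := N)
      (fun s hs t ht t' ht' => hN N le_rfl s hs t ht t' ht') n ht hs hs').trans ?_
    · intro m s hs s' hs'
      show dist (f.symm^[m] (R (s, 0))) (f.symm^[m] (R (s', 0))) ≤ _
      rw [hl s hs, hl s' hs']
      exact hσ m s hs s' hs'
    · exact num_bound hε hC hb hA h₂' hNN hn
  exact close_loop ha hb hc0 hab hR.ver hPQ hQP (fun N N' hNN h n hn => h n (hNN.trans hn))
    (Nat.le_ceil _)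

/-! ### Completion of rectangles -/

/-- Points of local stable sets are joined by paths whose backward iterates have at most
exponentially many steps. -/
def Slow (f : M ≃ₜ M) (ρ ε₁ Λ κ : ℝ) : Prop :=
  ∀ x, ∀ y ∈ Wl f ρ x, ∃ γ : ℝ → M, ContinuousOn γ (Icc 0 1) ∧ γ 0 = x ∧ γ 1 = y ∧
    (∀ t ∈ Icc (0 : ℝ) 1, ∀ t' ∈ Icc (0 : ℝ) 1, γ t ∈ Wl f ε₁ (γ t')) ∧
    ∀ n : ℕ, ∀ t ∈ Icc (0 : ℝ) 1, ∀ t' ∈ Icc (0 : ℝ) 1,
      dist (f.symm^[n] (γ t)) (f.symm^[n] (γ t')) ≤ Λ * κ ^ n * |t - t'|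

/-- The data of the abstract theorem. -/
structure Pinched (f : M ≃ₜ M) (ε₀ C A B a b ε CB ε₁ ρ Λ : ℝ) : Prop where
  A_pos : 0 < A
  B_pos : 0 < B
  a_nonneg : 0 ≤ a
  b_nonneg : 0 ≤ b
  ab_lt : a * b < 1
  dec : Dec f ε₀ C (Real.exp (-A))
  dec' : Dec f.symm ε₀ C (Real.exp (-B))
  ε_pos : 0 < ε
  ε_lt : 3 * C * ε < ε₀
  br : Br f ε CB
  ε₁_pos : 0 < ε₁
  ε₁_le : 2 * ε₁ ≤ ε
  ρ_pos : 0 < ρ
  Λ_nonneg : 0 ≤ Λ
  slow : Slow f ρ ε₁ Λ (Real.exp ((1 + b) * A))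
  slow' : Slow f.symm ρ ε₁ Λ (Real.exp ((1 + a) * B))

theorem fwdAsymp_of_mem {ε₀ C l : ℝ} (hD : Dec f ε₀ C l) {x y : M} {N : ℕ}
    (h : ∀ n ≥ N, dist (f^[n] x) (f^[n] y) ≤ ε₀) : FwdAsymp f x y := by
  have h1 : f^[N] x ∈ Wl f ε₀ (f^[N] y) := by
    intro k
    rw [← iterate_add_apply, ← iterate_add_apply]
    exact h (k + N) (by omega)
  have h2 := hD.dec _ _ h1
  have h3 : Tendsto (fun n : ℕ => dist (f^[n + N] x) (f^[n + N] y)) atTop (𝓝 0) := by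
    refine squeeze_zero (fun n => dist_nonneg)
      (g := fun n => C * l ^ n * dist (f^[N] x) (f^[N] y)) (fun n => ?_) ?_
    · have := h2 n
      rwa [← iterate_add_apply, ← iterate_add_apply] at this
    · have h4 := ((tendsto_pow_atTop_nhds_zero_of_lt_one hD.l_pos.le hD.l_lt).const_mul
        C).mul_const (dist (f^[N] x) (f^[N] y))
      rwa [mul_zero, zero_mul] at h4
  exact (tendsto_add_atTop_iff_nat (f := fun n => dist (f^[n] x) (f^[n] y)) N).1 h3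

/-- Every incomplete rectangle can be completed. -/
theorem Pinched.complete [CompactSpace M] {ε₀ C A B a b ε CB ε₁ ρ Λ : ℝ}
    (h : Pinched f ε₀ C A B a b ε CB ε₁ ρ Λ) {y p y' : M} (hp : FwdAsymp f y p)
    (hy' : y' ∈ Wl f.symm ρ y) : ∃ p', FwdAsymp f y' p' ∧ FwdAsymp f.symm p p' := by
  have hC := h.dec.one_le
  have hεε₀ : ε ≤ ε₀ := by nlinarith [h.ε_lt, h.ε_pos]
  have hε₁ε : ε₁ ≤ ε := by linarith [h.ε₁_le, h.ε₁_pos]
  -- the bottom side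
  obtain ⟨x, hxc, hx0, hx1, hxm, hxg⟩ := h.slow' y y' hy'
  -- the left side
  obtain ⟨N₂, hN₂⟩ : ∃ N₂ : ℕ, ∀ n ≥ N₂, dist (f^[n] y) (f^[n] p) < ρ :=
    eventually_atTop.1 (hp.eventually (gt_mem_nhds h.ρ_pos))
  have hpW : f^[N₂] p ∈ Wl f ρ (f^[N₂] y) := by
    intro k
    rw [← iterate_add_apply, ← iterate_add_apply, dist_comm]
    exact (hN₂ (k + N₂) (by omega)).le
  obtain ⟨γ, hγc, hγ0, hγ1, hγm, hγg⟩ := h.slow _ _ hpW
  set σ : ℝ → M := fun s => f.symm^[N₂] (γ s) with hσ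
  have hσ0 : σ 0 = y := by
    simp only [hσ, hγ0]
    exact symm_iterate_iterate f N₂ y
  have hσ1 : σ 1 = p := by
    simp only [hσ, hγ1]
    exact symm_iterate_iterate f N₂ p
  have hσc : ContinuousOn σ (Icc 0 1) := (f.symm.continuous.iterate N₂).comp_continuousOn hγc
  set Λ' : ℝ := Λ * Real.exp ((1 + b) * A) ^ N₂ with hΛ'
  have hΛ'0 : 0 ≤ Λ' := mul_nonneg h.Λ_nonneg (by positivity)
  have hσg : ∀ n : ℕ, ∀ t ∈ Icc (0 : ℝ) 1, ∀ t' ∈ Icc (0 : ℝ) 1,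
      dist (f.symm^[n] (σ t)) (f.symm^[n] (σ t'))
        ≤ Λ' * Real.exp ((1 + b) * A) ^ n * |t - t'| := by
    intro n t ht t' ht'
    have h1 := hγg (n + N₂) t ht t' ht'
    rw [iterate_add_apply, iterate_add_apply] at h1
    refine h1.trans (le_of_eq ?_)
    rw [hΛ', pow_add]
    ring
  obtain ⟨N₀, hN₀⟩ := rect_bound h.A_pos h.B_pos h.a_nonneg h.b_nonneg h.ab_lt h.dec h.dec'
    h.ε_pos h.ε_lt h.Λ_nonneg hΛ'0 hxg hσg
  obtain ⟨η, hη, hext⟩ := exists_ext h.dec h.dec' h.ε_pos hεε₀ h.br h.ε₁_pos h.ε₁_le (σ := σ) hxc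
    h.Λ_nonneg (Real.one_le_exp (by
      have := h.B_pos
      have := h.a_nonneg
      positivity)) hxg hxm N₀
  -- rectangles over longer and longer bottom sides
  have key : ∀ k : ℕ, ∃ R : ℝ × ℝ → M, Rct f ε R 1 (min (k * η) 1) ∧
      (∀ s ∈ Icc (0 : ℝ) 1, R (s, 0) = σ s) ∧
      (∀ t ∈ Icc (0 : ℝ) (min (k * η) 1), R (0, t) = x t) := by
    intro k
    induction k with
    | zero =>
      have e : min (((0 : ℕ) : ℝ) * η) 1 = 0 := by simp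
      rw [e]
      refine ⟨fun q => σ q.1, ⟨?_, ?_, ?_⟩, fun s _ => rfl, ?_⟩
      · exact hσc.comp continuous_fst.continuousOn fun q hq => hq.1
      · refine ⟨0, fun n _ s _ t _ t' _ => ?_⟩
        rw [dist_self]
        exact h.ε_pos.le
      · refine ⟨N₂, fun n hn t _ s hs s' hs' => ?_⟩
        obtain ⟨j, rfl⟩ := Nat.exists_eq_add_of_le hn
        simp only [hσ]
        rw [add_comm N₂ j, iterate_add_apply, iterate_add_apply, iterate_symm_iterate,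
          iterate_symm_iterate]
        exact (hγm s hs s' hs' j).trans hε₁ε
      · intro t ht
        have : t = 0 := le_antisymm ht.2 ht.1
        rw [this, hx0]
        exact hσ0
    | succ k ih =>
      obtain ⟨R, hR, hl, hb⟩ := ih
      have hT0 : 0 ≤ min ((k : ℝ) * η) 1 := by positivity
      have hT1 : min ((k : ℝ) * η) 1 ≤ 1 := min_le_right _ _
      refine hext (min (k * η) 1) (min (((k + 1 : ℕ) : ℝ) * η) 1) R hT0 ?_ ?_
        (min_le_right _ _) hR (hN₀ _ R hT0 hT1 hR hl hb) hl hb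
      · refine min_le_min ?_ le_rfl
        push_cast
        nlinarith
      · push_cast
        rcases le_total ((k : ℝ) * η) 1 with h1 | h1
        · rw [min_eq_left h1]
          exact (min_le_left _ _).trans (by linarith)
        · rw [min_eq_right h1]
          exact (min_le_right _ _).trans (by linarith)
  obtain ⟨k, hk⟩ := exists_nat_gt (1 / η)
  have hk1 : min ((k : ℝ) * η) 1 = 1 := by
    apply min_eq_right
    rw [div_lt_iff₀ hη] at hk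
    exact hk.le
  obtain ⟨R, hR, hl, hb⟩ := key k
  rw [hk1] at hR hb
  have h01 : (0 : ℝ) ∈ Icc (0 : ℝ) 1 := ⟨le_rfl, zero_le_one⟩
  have h11 : (1 : ℝ) ∈ Icc (0 : ℝ) 1 := ⟨zero_le_one, le_rfl⟩
  refine ⟨R (1, 1), ?_, ?_⟩
  · obtain ⟨N, hN⟩ := hR.ver
    rw [← hx1, ← hb 1 h11]
    exact fwdAsymp_of_mem h.dec (N := N) fun n hn =>
      (hN n hn 1 h11 0 h01 1 h11).trans hεε₀
  · obtain ⟨N, hN⟩ := hR.hor
    rw [← hσ1, ← hl 1 h11]
    exact fwdAsymp_of_mem (f := f.symm) h.dec' (N := N) fun n hn =>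
      (hN n hn 1 h11 0 h01 1 h11).trans hεε₀

/-! ### Saturation -/

theorem FwdAsymp.symm' {g : M → M} {x y : M} (h : FwdAsymp g x y) : FwdAsymp g y x := by
  unfold FwdAsymp at h ⊢
  simpa only [dist_comm] using h

theorem FwdAsymp.trans' {g : M → M} {x y z : M} (h : FwdAsymp g x y) (h' : FwdAsymp g y z) :
    FwdAsymp g x z := by
  unfold FwdAsymp at h h' ⊢
  have h1 := h.add h'
  rw [add_zero] at h1
  exact squeeze_zero (fun n => dist_nonneg) (fun n => dist_triangle _ _ _) h1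

/-- Every stable set meets every unstable set. -/
theorem Pinched.gps [CompactSpace M] [PreconnectedSpace M] {ε₀ C A B a b ε CB ε₁ ρ Λ : ℝ}
    (h : Pinched f ε₀ C A B a b ε CB ε₁ ρ Λ) (x y : M) :
    ∃ z, FwdAsymp f y z ∧ FwdAsymp f.symm x z := by
  have hC := h.dec.one_le
  have hε₀ := h.dec.ε_pos
  set U : Set M := {y | ∃ z, FwdAsymp f y z ∧ FwdAsymp f.symm x z} with hU
  obtain ⟨δ, hδ, hex⟩ := h.br.exist (min ρ ε₀) (lt_min h.ρ_pos hε₀)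
  have hstep : ∀ u ∈ U, ∀ v, dist u v < δ → v ∈ U := by
    rintro u ⟨p, hp, hp'⟩ v huv
    obtain ⟨w, hw, hw'⟩ := hex u v huv
    have h1 : FwdAsymp f w p :=
      FwdAsymp.trans' (fwdAsymp_of_mem h.dec (N := 0) fun n _ =>
        (hw n).trans (min_le_right _ _)) hp
    obtain ⟨p', hp1, hp2⟩ := h.complete h1 (y' := v)
      (Wl_mono (min_le_left _ _) (Wl_comm hw'))
    exact ⟨p', hp1, FwdAsymp.trans' hp' hp2⟩
  have hopen : IsOpen U := by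
    rw [Metric.isOpen_iff]
    intro u hu
    refine ⟨δ, hδ, fun v hv => hstep u hu v ?_⟩
    rw [dist_comm]
    exact hv
  have hclosed : IsClosed U := by
    rw [← isOpen_compl_iff, Metric.isOpen_iff]
    intro u hu
    refine ⟨δ, hδ, fun v hv hvU => hu (hstep v hvU u hv)⟩
  have hself : FwdAsymp f x x ∧ FwdAsymp f.symm x x := by
    constructor <;> · unfold FwdAsymp; simp
  have hne : U.Nonempty := ⟨x, x, hself.1, hself.2⟩
  have huniv : U = univ := IsClopen.eq_univ ⟨hclosed, hopen⟩ hne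
  have : y ∈ U := by rw [huniv]; exact mem_univ y
  exact this

end Pool.Agent.Lib.MP610fe3.H6
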