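import Pool.Agent.Lib.MP_610fe3_an.Cf.Len2
import Pool.Agent.Lib.MP_610fe3_an.Cf.Crd
import Pool.Agent.Lib.MP_610fe3_an.H6.Gps

/-!
# Rates of the derivative cocycle and rates of the local stable sets
-/

open Set Filter Function MeasureTheory
open scoped Topology

namespace Pool.Agent.Lib.MP610fe3.H6

open Cf Cf.Len2

variable {M W : Type*} [MetricSpace M] [CompactSpace M] [NormedAddCommGroup W]
  [NormedSpace ℝ W] {E : Emb M W} {f : M ≃ₜ M}

/-- The contraction rate of local stable sets is as close as one wants to that of the stable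
bundle. -/
theorem exists_dec_rate (s : Split E f) (hs : s.Hyperbolic) {C₀ m l : ℝ} (hm : 0 < m)
    (hml : m < l) (hl1 : l < 1)
    (H : ∀ (k : ℕ) (x : M) (w : W), ‖iterD s.D f k x (s.S x w)‖ ≤ C₀ * m ^ k * ‖w‖) :
    ∃ ε C : ℝ, Dec f ε C l := by
  have hl : 0 < l := hm.trans hml
  -- the time step
  obtain ⟨N, hN1, hNpos⟩ : ∃ N : ℕ, C₀ * (m / l) ^ N < 1 / 2 ∧ 1 ≤ N := by
    have h := (tendsto_pow_atTop_nhds_zero_of_lt_one (r := m / l) (by positivity)
      ((div_lt_one hl).2 hml)).const_mul C₀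
    rw [mul_zero] at h
    exact ((h.eventually (gt_mem_nhds (show (0 : ℝ) < 1 / 2 by norm_num))).and
      (eventually_ge_atTop 1)).exists
  have hlN : 0 < l ^ N := by positivity
  have hN : C₀ * m ^ N ≤ l ^ N / 2 := by
    have h1 : C₀ * m ^ N = C₀ * (m / l) ^ N * l ^ N := by
      rw [div_pow]
      field_simp
    rw [h1]
    nlinarith
  obtain ⟨B, hB⟩ : ∃ B : ℝ, 0 < B ∧ ∀ x, ‖iterD s.D f N x‖ ≤ B := by
    have hc : Continuous fun x => ‖iterD s.D f N x‖ :=
      (continuous_iterD s.hD.cont f.continuous N).norm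
    obtain ⟨B, hB⟩ := (isCompact_range hc).bddAbove
    exact ⟨max B 1, by positivity, fun x => (hB ⟨x, rfl⟩).trans (le_max_left _ _)⟩
  obtain ⟨hB0, hB⟩ := hB
  obtain ⟨r, hr, happ⟩ := hasD_iter_approx s N (l ^ N / 4) (by positivity)
  obtain ⟨ε₂, hε₂, hcone⟩ := exists_cone s hs (η := l ^ N / 4 / B) (by positivity)
  obtain ⟨L, r', hL1, hr', hlip⟩ := s.hD.exists_lip
  set ε : ℝ := min (min (r / 2) (r' / 2)) ε₂ with hε
  have hε0 : 0 < ε := by positivity
  have hεr : ε < r := lt_of_le_of_lt ((min_le_left _ _).trans (min_le_left _ _)) (by linarith)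
  have hεr' : ε < r' := lt_of_le_of_lt ((min_le_left _ _).trans (min_le_right _ _)) (by linarith)
  have hstep : ∀ x, ∀ z ∈ Wl f ε x, dist (f^[N] z) (f^[N] x) ≤ l ^ N * dist z x := by
    intro x z hz
    have h1 := happ x z ((hz 0).trans_lt hεr)
    have h2 := hcone x z (Wl_mono (min_le_right _ _) hz)
    have h3 := H N x (E.e z - E.e x)
    have h4 : iterD s.D f N x (E.e z - E.e x) = iterD s.D f N x (s.S x (E.e z - E.e x)) +
        iterD s.D f N x (E.e z - E.e x - s.S x (E.e z - E.e x)) := by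
      rw [← map_add]
      congr 1
      abel
    have h5 : ‖iterD s.D f N x (E.e z - E.e x - s.S x (E.e z - E.e x))‖ ≤
        l ^ N / 4 * dist z x := by
      refine ((iterD s.D f N x).le_opNorm _).trans ?_
      calc ‖iterD s.D f N x‖ * ‖E.e z - E.e x - s.S x (E.e z - E.e x)‖
          ≤ B * (l ^ N / 4 / B * dist z x) := by
            have := hB x
            gcongr
        _ = l ^ N / 4 * dist z x := by field_simp
    have h6 : ‖E.e z - E.e x‖ = dist z x := (E.dist_eq z x).symm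
    rw [h6] at h3
    have h7 : ‖iterD s.D f N x (E.e z - E.e x)‖ ≤ l ^ N / 2 * dist z x + l ^ N / 4 * dist z x := by
      rw [h4]
      refine (norm_add_le _ _).trans (add_le_add ?_ h5)
      exact h3.trans (mul_le_mul_of_nonneg_right hN dist_nonneg)
    rw [E.dist_eq (f^[N] z) (f^[N] x)]
    have h8 : E.e (f^[N] z) - E.e (f^[N] x) =
        (E.e (f^[N] z) - E.e (f^[N] x) - iterD s.D f N x (E.e z - E.e x)) +
        iterD s.D f N x (E.e z - E.e x) := by abel
    rw [h8]
    refine (norm_add_le _ _).trans ?_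
    linarith
  have hq : ∀ (q : ℕ) (x : M), ∀ z ∈ Wl f ε x,
      dist (f^[N * q] z) (f^[N * q] x) ≤ l ^ (N * q) * dist z x := by
    intro q
    induction q with
    | zero => intro x z _; simp
    | succ q ih =>
      intro x z hz
      have h1 := hstep _ _ (Wl_iter hz (N * q))
      rw [← iterate_add_apply, ← iterate_add_apply] at h1
      have h2 : N + N * q = N * (q + 1) := by ring
      rw [h2] at h1
      calc _ ≤ l ^ N * dist (f^[N * q] z) (f^[N * q] x) := h1
        _ ≤ l ^ N * (l ^ (N * q) * dist z x) := by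
            gcongr
            exact ih x z hz
        _ = l ^ (N * (q + 1)) * dist z x := by ring
  refine ⟨ε, L ^ N / l ^ N, hε0, ?_, hl, hl1, fun x z hz n => ?_⟩
  · rw [one_le_div hlN]
    exact (pow_le_one₀ hl.le hl1.le).trans (one_le_pow₀ hL1)
  have hz2 : ∀ k, dist (f^[k] z) (f^[k] x) < r' := fun k => (hz k).trans_lt hεr'
  have hLip : ∀ i j, dist (f^[i + j] z) (f^[i + j] x) ≤ L ^ j * dist (f^[i] z) (f^[i] x) := by
    intro i j
    induction j with
    | zero => simp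
    | succ j ih =>
      have h2 := hlip (f^[i + j] z) (f^[i + j] x) (hz2 _)
      rw [← add_assoc, iterate_succ_apply', iterate_succ_apply']
      calc _ ≤ L * dist (f^[i + j] z) (f^[i + j] x) := h2
        _ ≤ L * (L ^ j * dist (f^[i] z) (f^[i] x)) := by gcongr
        _ = L ^ (j + 1) * dist (f^[i] z) (f^[i] x) := by ring
  set q := n / N with hqdef
  set j := n % N with hj
  have hkq : N * q + j = n := Nat.div_add_mod n N
  have hjN : j < N := Nat.mod_lt _ hNpos
  have h1 := hLip (N * q) j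
  rw [hkq] at h1
  have h2 := hq q x z hz
  have hLj : L ^ j ≤ L ^ N := pow_le_pow_right₀ hL1 hjN.le
  have hlq : l ^ (N * q) ≤ l ^ n / l ^ N := by
    rw [le_div_iff₀ hlN, ← pow_add]
    exact pow_le_pow_of_le_one hl.le hl1.le (by omega)
  have hL0 : 0 ≤ L ^ j := by positivity
  calc dist (f^[n] z) (f^[n] x) ≤ L ^ j * dist (f^[N * q] z) (f^[N * q] x) := h1
    _ ≤ L ^ N * (l ^ n / l ^ N * dist z x) := by
        refine mul_le_mul hLj (h2.trans ?_) dist_nonneg (by positivity)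
        exact mul_le_mul_of_nonneg_right hlq dist_nonneg
    _ = L ^ N / l ^ N * l ^ n * dist z x := by ring

/-- Points of small local stable sets are joined by paths in the local stable set whose backward
iterates grow with the rate of the stable bundle. -/
theorem exists_slow [FiniteDimensional ℝ W] (s : Split E f) (hs : s.Hyperbolic) {C₀ κ : ℝ}
    (hC₀ : 0 ≤ C₀) (hκ : 0 ≤ κ)
    (H : ∀ (k : ℕ) (x : M) (w : W), ‖iterD s.Di f.symm k x (s.S x w)‖ ≤ C₀ * κ ^ k * ‖w‖)
    {ε₁ : ℝ} (hε₁ : 0 < ε₁) : ∃ ρ Λ : ℝ, 0 < ρ ∧ 0 ≤ Λ ∧ Slow f ρ ε₁ Λ κ := by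
  obtain ⟨εc, Cc, hcrd⟩ := specCrd M W E f s hs
  obtain ⟨εD, CD, lD, hdec⟩ := exists_dec s hs
  obtain ⟨K, hK1, hK⟩ := s.exists_bdd
  have hK0 : 0 < K := by linarith
  have hCc := hcrd.one_le
  set ε' : ℝ := min (min (ε₁ / 2) (εD / 2)) εc with hε'
  have hε'0 : 0 < ε' := by
    have := hcrd.ε_pos
    have := hdec.ε_pos
    positivity
  have hε'1 : 2 * ε' ≤ ε₁ := by
    have : ε' ≤ ε₁ / 2 := (min_le_left _ _).trans (min_le_left _ _)
    linarith
  have hε'D : 2 * ε' ≤ εD := by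
    have : ε' ≤ εD / 2 := (min_le_left _ _).trans (min_le_right _ _)
    linarith
  have hε'c : ε' ≤ εc := min_le_right _ _
  obtain ⟨r, hr, hsurj⟩ := hcrd.surj ε' hε'0
  set Λ₁ : ℝ := Cc * r with hΛ₁
  have hΛ₁0 : 0 ≤ Λ₁ := by positivity
  refine ⟨min ε' (r / K), Λ₁ * C₀, by positivity, by positivity, fun x y hy => ?_⟩
  have hyε' : y ∈ Wl f ε' x := Wl_mono (min_le_left _ _) hy
  set w₀ : W := s.S x (E.e y - E.e x) with hw₀
  have hw₀S : s.S x w₀ = w₀ := s.SS_apply x _
  have hw₀r : ‖w₀‖ ≤ r := by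
    have h1 : ‖w₀‖ ≤ K * ‖E.e y - E.e x‖ :=
      ((s.S x).le_opNorm _).trans (mul_le_mul_of_nonneg_right (hK x).1 (norm_nonneg _))
    rw [← E.dist_eq y x] at h1
    have h2 : dist y x ≤ r / K := (Wl_dist hy).trans (min_le_right _ _)
    calc ‖w₀‖ ≤ K * dist y x := h1
      _ ≤ K * (r / K) := by gcongr
      _ = r := by field_simp
  set c : ℝ → ℝ := fun t => max 0 (min t 1) with hc
  have hc0 : ∀ t, 0 ≤ c t := fun t => le_max_left _ _
  have hc1 : ∀ t, c t ≤ 1 := fun t => max_le zero_le_one (min_le_right _ _)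
  have hcI : ∀ t ∈ Icc (0 : ℝ) 1, c t = t := by
    intro t ht
    simp only [hc]
    rw [min_eq_left ht.2, max_eq_right ht.1]
  have hclip : ∀ t t', |c t - c t'| ≤ |t - t'| := by
    intro t t'
    simp only [hc]
    exact (abs_max_sub_max_le_max _ _ _ _).trans (by
      rw [sub_self, abs_zero]
      refine max_le (abs_nonneg _) ?_
      refine (abs_min_sub_min_le_max _ _ _ _).trans ?_
      rw [sub_self, abs_zero]
      exact max_le le_rfl (abs_nonneg _))
  have hex : ∀ t : ℝ, ∃ z ∈ Wl f ε' x, s.S x (E.e z - E.e x) = c t • w₀ := by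
    intro t
    refine hsurj x (c t • w₀) (by rw [map_smul, hw₀S]) ?_
    rw [norm_smul, Real.norm_eq_abs, abs_of_nonneg (hc0 t)]
    calc c t * ‖w₀‖ ≤ 1 * ‖w₀‖ := by gcongr; exact hc1 t
      _ ≤ r := by rw [one_mul]; exact hw₀r
  choose γ hγW hγS using hex
  have hγlip : ∀ t t', dist (γ t) (γ t') ≤ Λ₁ * |t - t'| := by
    intro t t'
    have h1 := hcrd.lower x (γ t) (Wl_mono hε'c (hγW t)) (γ t') (Wl_mono hε'c (hγW t'))
    have h2 : s.S x (E.e (γ t) - E.e (γ t')) = (c t - c t') • w₀ := by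
      have h3 : E.e (γ t) - E.e (γ t') = (E.e (γ t) - E.e x) - (E.e (γ t') - E.e x) := by abel
      rw [h3, map_sub, hγS, hγS, sub_smul]
    rw [h2, norm_smul, Real.norm_eq_abs] at h1
    calc dist (γ t) (γ t') ≤ Cc * (|c t - c t'| * ‖w₀‖) := h1
      _ ≤ Cc * (|t - t'| * r) := by
          have := hclip t t'
          gcongr
      _ = Λ₁ * |t - t'| := by rw [hΛ₁]; ring
  have hγc : Continuous γ := by
    refine (LipschitzWith.of_dist_le_mul (K := ⟨Λ₁, hΛ₁0⟩) fun t t' => ?_).continuous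
    rw [Real.dist_eq]
    exact hγlip t t'
  have hγmut : ∀ t t', γ t ∈ Wl f (2 * ε') (γ t') := by
    intro t t'
    have := Wl_trans (Wl_comm (hγW t')) (hγW t)
    rwa [← two_mul] at this
  have h0 : γ 0 = x := by
    have h1 := hcrd.lower x (γ 0) (Wl_mono hε'c (hγW 0)) x (mem_Wl_self hcrd.ε_pos.le)
    have h2 := hγS 0
    rw [hcI 0 ⟨le_rfl, zero_le_one⟩, zero_smul] at h2
    rw [h2, norm_zero, mul_zero] at h1
    exact dist_le_zero.1 h1
  have h1 : γ 1 = y := by
    have h1 := hcrd.lower x (γ 1) (Wl_mono hε'c (hγW 1)) y (Wl_mono hε'c hyε')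
    have h2 := hγS 1
    rw [hcI 1 ⟨zero_le_one, le_rfl⟩, one_smul] at h2
    have h3 : E.e (γ 1) - E.e y = (E.e (γ 1) - E.e x) - (E.e y - E.e x) := by abel
    rw [h3, map_sub, h2, ← hw₀, sub_self, norm_zero, mul_zero] at h1
    exact dist_le_zero.1 h1
  have hgrow : ∀ (n : ℕ) (a b : ℝ), a ≤ b →
      dist (f.symm^[n] (γ b)) (f.symm^[n] (γ a)) ≤ Λ₁ * C₀ * κ ^ n * (b - a) := by
    intro n a b hab
    have h2 := path_len (s := s.swap) hs.swap (ε := εD) (C := CD) (l := lD) hdec n hγc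
      (Λ := Λ₁) hab (fun t _ t' _ => hγlip t' t)
      (fun t _ t' _ => Wl_mono hε'D (hγmut t' t)) hΛ₁0
    refine h2.trans ?_
    have h3 : ∀ t : ℝ, ‖iterD s.Di f.symm n (γ t) ∘L s.S (γ t)‖ ≤ C₀ * κ ^ n := by
      intro t
      refine ContinuousLinearMap.opNorm_le_bound _ (by positivity) fun w => ?_
      exact H n (γ t) w
    have h4 : ‖∫ t in a..b, ‖iterD s.swap.D f.symm n (γ t) ∘L s.swap.U (γ t)‖‖ ≤
        C₀ * κ ^ n * |b - a| := by
      refine intervalIntegral.norm_integral_le_of_norm_le_const fun t _ => ?_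
      rw [norm_norm]
      exact h3 t
    have h5 := (Real.le_norm_self _).trans h4
    rw [abs_of_nonneg (by linarith)] at h5
    calc Λ₁ * ∫ t in a..b, ‖iterD s.swap.D f.symm n (γ t) ∘L s.swap.U (γ t)‖
        ≤ Λ₁ * (C₀ * κ ^ n * (b - a)) := by gcongr
      _ = Λ₁ * C₀ * κ ^ n * (b - a) := by ring
  refine ⟨γ, hγc.continuousOn, h0, h1, fun t _ t' _ => Wl_mono hε'1 (hγmut t t'),
    fun n t _ t' _ => ?_⟩
  rcases le_total t t' with h | h
  · rw [dist_comm, abs_sub_comm, abs_of_nonneg (by linarith)]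
    exact hgrow n t t' h
  · rw [abs_of_nonneg (by linarith)]
    exact hgrow n t' t h

end Pool.Agent.Lib.MP610fe3.H6
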