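import Pool.Agent.Lib.MP_610fe3_an.TopA

/-!
# If every stable set meets every unstable set then the homeomorphism is chain transitive
-/

open Set Filter Function
open scoped Topology

namespace Pool.Agent.Lib.MP610fe3.H6

theorem iterate_symm_of_le {X : Type*} [TopologicalSpace X] (f : X ≃ₜ X) {i k : ℕ} (hik : i ≤ k)
    (x : X) : f^[i] (f.symm^[k] x) = f.symm^[k - i] x := by
  have h3 : Function.LeftInverse (f^[i]) (f.symm^[i]) :=
    Function.LeftInverse.iterate f.apply_symm_apply i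
  have : f.symm^[k] x = f.symm^[i] (f.symm^[k - i] x) := by
    rw [← iterate_add_apply]; congr 1; congr 1; omega
  rw [this, h3]

theorem chainTransitive_of_gps {X : Type*} [MetricSpace X] [CompactSpace X] {f : X ≃ₜ X}
    (h : ∀ x y, ∃ z, FwdAsymp f y z ∧ FwdAsymp f.symm x z) : ChainTransitive f := by
  intro a b ε hε
  obtain ⟨α, -, φ, hφ, hα⟩ := (isCompact_univ (X := X)).tendsto_subseq
    (x := fun k => f^[k] a) (fun _ => mem_univ _)
  obtain ⟨β, -, ψ, hψ, hβ⟩ := (isCompact_univ (X := X)).tendsto_subseq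
    (x := fun k => f.symm^[k] b) (fun _ => mem_univ _)
  obtain ⟨z, hz, hz'⟩ := h α β
  have hε3 : 0 < ε / 3 := by positivity
  obtain ⟨k, hk⟩ : ∃ k, dist (f.symm^[k] α) (f.symm^[k] z) < ε / 3 :=
    (hz'.eventually (gt_mem_nhds hε3)).exists
  obtain ⟨l, hl, hl1⟩ : ∃ l, dist (f^[l] β) (f^[l] z) < ε / 3 ∧ 1 ≤ l :=
    ((hz.eventually (gt_mem_nhds hε3)).and (eventually_ge_atTop 1)).exists
  have hα' : Tendsto (fun j => dist (f.symm^[k] (f^[φ j] a)) (f.symm^[k] α)) atTop (𝓝 0) := by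
    have h1 := (((f.symm.continuous.iterate k).tendsto α).comp hα)
    rw [tendsto_iff_dist_tendsto_zero] at h1
    exact h1
  have hβ' : Tendsto (fun j => dist (f^[l] (f.symm^[ψ j] b)) (f^[l] β)) atTop (𝓝 0) := by
    have h1 := (((f.continuous.iterate l).tendsto β).comp hβ)
    rw [tendsto_iff_dist_tendsto_zero] at h1
    exact h1
  obtain ⟨j, hj, hjk⟩ := ((hα'.eventually (gt_mem_nhds hε3)).and
    (eventually_ge_atTop (k + 1))).exists
  obtain ⟨i, hi, hil⟩ := ((hβ'.eventually (gt_mem_nhds hε3)).and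
    (eventually_ge_atTop (l + 1))).exists
  have hjk' : k + 1 ≤ φ j := hjk.trans (hφ.id_le j)
  have hil' : l + 1 ≤ ψ i := hil.trans (hψ.id_le i)
  rw [symm_iterate_iterate f (by omega : k ≤ φ j)] at hj
  rw [iterate_symm_of_le f (by omega : l ≤ ψ i)] at hi
  have c1 : Chain f (ε / 3 + 2 * (ε / 3)) a (f.symm^[k] z) := by
    refine (chain_iterate hε3 a (by omega : 0 < φ j - k)).last ?_
    have := dist_triangle (f^[φ j - k] a) (f.symm^[k] α) (f.symm^[k] z)
    linarith
  have c2 : Chain f (ε / 3 + 2 * (ε / 3)) (f.symm^[k] z) (f.symm^[ψ i - l] b) := by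
    have h1 := chain_iterate (f := f) hε3 (f.symm^[k] z) (by omega : 0 < l + k)
    have h2 : f^[l + k] (f.symm^[k] z) = f^[l] z := by
      rw [iterate_add_apply, iterate_symm_of_le f le_rfl, Nat.sub_self]
      rfl
    rw [h2] at h1
    refine h1.last ?_
    have h3 := dist_triangle (f^[l] z) (f^[l] β) (f.symm^[ψ i - l] b)
    rw [dist_comm (f^[l] z) (f^[l] β), dist_comm (f^[l] β) (f.symm^[ψ i - l] b)] at h3
    linarith
  have c3 : Chain f (ε / 3 + 2 * (ε / 3)) (f.symm^[ψ i - l] b) b := by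
    have h1 := chain_iterate (f := f) hε3 (f.symm^[ψ i - l] b) (by omega : 0 < ψ i - l)
    rw [iterate_symm_of_le f le_rfl, Nat.sub_self] at h1
    exact h1.mono (by linarith)
  exact ((c1.trans c2).trans c3).mono (by linarith)

end Pool.Agent.Lib.MP610fe3.H6
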