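import Pool.Agent.Lib.MP_610fe3_an.H6.Sharp
import Pool.Agent.Lib.MP_610fe3_an.H6.Chn
import Pool.Agent.Lib.MP_610fe3_an.Transitive
import Pool.Agent.Lib.MP_610fe3_an.Cf.Mfd1
import Pool.Agent.Lib.MP_610fe3_an.Gen.Split

/-!
# Double pinching: the abstract theorem and the theorem for manifolds
-/

open Set Filter Function Bundle
open scoped Manifold ContDiff Topology

namespace Pool.Agent.Lib.MP610fe3.H6

open Cf

section Abstract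

variable {M : Type*} [MetricSpace M] {f : M ≃ₜ M}

theorem Slow.mono {ρ ε₁ Λ κ ρ' Λ' : ℝ} (h : Slow f ρ ε₁ Λ κ) (hρ : ρ' ≤ ρ) (hΛ : Λ ≤ Λ')
    (hκ : 0 ≤ κ) : Slow f ρ' ε₁ Λ' κ := by
  intro x y hy
  obtain ⟨γ, h1, h2, h3, h4, h5⟩ := h x y (Wl_mono hρ hy)
  refine ⟨γ, h1, h2, h3, h4, fun n t ht t' ht' => (h5 n t ht t' ht').trans ?_⟩
  have : 0 ≤ κ ^ n := pow_nonneg hκ n
  gcongr

/-- Slightly worse rates still satisfy the strict inequality. -/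
theorem exists_tau {p q : ℝ} (hp : 1 ≤ p) (hq : 1 ≤ q) (h : (p - 1) * (q - 1) < 1) :
    ∃ τ : ℝ, 0 < τ ∧ τ < 1 ∧ 0 ≤ p / τ - 1 ∧ 0 ≤ q / τ - 1 ∧ (q / τ - 1) * (p / τ - 1) < 1 := by
  have hc : ContinuousAt (fun τ : ℝ => (q / τ - 1) * (p / τ - 1)) 1 := by
    have h1 : ContinuousAt (fun τ : ℝ => q / τ) 1 :=
      continuousAt_const.div continuousAt_id one_ne_zero
    have h2 : ContinuousAt (fun τ : ℝ => p / τ) 1 :=
      continuousAt_const.div continuousAt_id one_ne_zero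
    exact (h1.sub continuousAt_const).mul (h2.sub continuousAt_const)
  have h1 : (fun τ : ℝ => (q / τ - 1) * (p / τ - 1)) 1 < 1 := by
    simp only [div_one]
    linarith
  have h2 : ∀ᶠ τ in 𝓝 (1 : ℝ), (q / τ - 1) * (p / τ - 1) < 1 :=
    hc.eventually (gt_mem_nhds h1)
  have h3 : ∀ᶠ τ in 𝓝[<] (1 : ℝ), (q / τ - 1) * (p / τ - 1) < 1 := nhdsWithin_le_nhds h2
  have h4 : ∀ᶠ τ in 𝓝[<] (1 : ℝ), 0 < τ :=
    nhdsWithin_le_nhds (lt_mem_nhds one_pos)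
  obtain ⟨τ, hτ, hτ0, hτ1⟩ := (h3.and (h4.and self_mem_nhdsWithin)).exists
  have hτ1' : τ < 1 := hτ1
  refine ⟨τ, hτ0, hτ1', ?_, ?_, hτ⟩
  · rw [sub_nonneg, one_le_div hτ0]
    linarith
  · rw [sub_nonneg, one_le_div hτ0]
    linarith

variable {W : Type*} [CompactSpace M] [NormedAddCommGroup W] [NormedSpace ℝ W]
  [FiniteDimensional ℝ W] {E : Emb M W}

/-- The abstract theorem. -/
theorem split_gps [PreconnectedSpace M] (s : Split E f) (hs : s.Hyperbolic)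
    {C₀ l₁ l₂ m₁ m₂ : ℝ} (hC₀ : 0 ≤ C₀) (hl₁ : 0 < l₁) (hl : l₁ ≤ l₂) (hl₂ : l₂ < 1)
    (hm₁ : 1 < m₁) (hm : m₁ ≤ m₂)
    (h1 : ∀ (k : ℕ) (x : M) (w : W), ‖iterD s.D f k x (s.S x w)‖ ≤ C₀ * l₂ ^ k * ‖w‖)
    (h2 : ∀ (k : ℕ) (x : M) (w : W), ‖iterD s.Di f.symm k x (s.S x w)‖ ≤ C₀ * l₁⁻¹ ^ k * ‖w‖)
    (h3 : ∀ (k : ℕ) (x : M) (w : W), ‖iterD s.Di f.symm k x (s.U x w)‖ ≤ C₀ * m₁⁻¹ ^ k * ‖w‖)
    (h4 : ∀ (k : ℕ) (x : M) (w : W), ‖iterD s.D f k x (s.U x w)‖ ≤ C₀ * m₂ ^ k * ‖w‖)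
    (hpinch : (Real.log l₁ / Real.log l₂ - 1) * (Real.log m₂ / Real.log m₁ - 1) < 1)
    (x y : M) : ∃ z, FwdAsymp f y z ∧ FwdAsymp f.symm x z := by
  have hl₂0 : 0 < l₂ := hl₁.trans_le hl
  have hL2 : Real.log l₂ < 0 := Real.log_neg hl₂0 hl₂
  have hL1 : Real.log l₁ ≤ Real.log l₂ := Real.log_le_log hl₁ hl
  have hM1 : 0 < Real.log m₁ := Real.log_pos hm₁
  have hM2 : Real.log m₁ ≤ Real.log m₂ := Real.log_le_log (by linarith) hm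
  set p : ℝ := Real.log l₁ / Real.log l₂ with hp
  set q : ℝ := Real.log m₂ / Real.log m₁ with hq
  have hp1 : 1 ≤ p := by
    rw [hp, one_le_div_of_neg hL2]
    exact hL1
  have hq1 : 1 ≤ q := by
    rw [hq, one_le_div hM1]
    exact hM2
  obtain ⟨τ, hτ0, hτ1, hb, ha, hab⟩ := exists_tau hp1 hq1 hpinch
  set A : ℝ := -(τ * Real.log l₂) with hA
  set B : ℝ := τ * Real.log m₁ with hB
  have hA0 : 0 < A := by rw [hA]; nlinarith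
  have hB0 : 0 < B := by positivity
  have hne2 : Real.log l₂ ≠ 0 := hL2.ne
  have eA : (1 + (p / τ - 1)) * A = Real.log l₁⁻¹ := by
    rw [Real.log_inv, hA, hp]
    field_simp
    ring
  have eB : (1 + (q / τ - 1)) * B = Real.log m₂ := by
    rw [hB, hq]
    field_simp
    ring
  have eA' : Real.exp ((1 + (p / τ - 1)) * A) = l₁⁻¹ := by
    rw [eA, Real.exp_log (by positivity)]
  have eB' : Real.exp ((1 + (q / τ - 1)) * B) = m₂ := by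
    rw [eB, Real.exp_log (by linarith)]
  -- decay
  have hexpA : Real.exp (-A) < 1 := by
    rw [Real.exp_lt_one_iff]
    linarith
  have hexpB : Real.exp (-B) < 1 := by
    rw [Real.exp_lt_one_iff]
    linarith
  have hl₂A : l₂ < Real.exp (-A) := by
    rw [← Real.log_lt_iff_lt_exp hl₂0, hA, neg_neg]
    nlinarith
  have hm₁B : m₁⁻¹ < Real.exp (-B) := by
    rw [← Real.log_lt_iff_lt_exp (by positivity), hB, Real.log_inv]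
    nlinarith
  obtain ⟨ε₁, C₁, hD₁⟩ := exists_dec_rate s hs hl₂0 hl₂A hexpA h1
  obtain ⟨ε₂, C₂, hD₂⟩ := exists_dec_rate s.swap hs.swap (m := m₁⁻¹) (by positivity) hm₁B hexpB h3
  set ε₀ : ℝ := min ε₁ ε₂ with hε₀
  have hε₀0 : 0 < ε₀ := lt_min hD₁.ε_pos hD₂.ε_pos
  set C : ℝ := max C₁ C₂ with hC
  have hC1 : 1 ≤ C := hD₁.one_le.trans (le_max_left _ _)
  have hD : Dec f ε₀ C (Real.exp (-A)) :=
    hD₁.mono hε₀0 (min_le_left _ _) (le_max_left _ _) le_rfl hexpA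
  have hD' : Dec f.symm ε₀ C (Real.exp (-B)) :=
    hD₂.mono hε₀0 (min_le_right _ _) (le_max_right _ _) le_rfl hexpB
  -- local product structure
  obtain ⟨εB, CB, hBr⟩ := br M W E f s hs
  set ε : ℝ := min εB (ε₀ / (6 * C)) with hε
  have hε0 : 0 < ε := by
    have := hBr.ε_pos
    positivity
  have hεlt : 3 * C * ε < ε₀ := by
    have h5 : ε ≤ ε₀ / (6 * C) := min_le_right _ _
    have h6 : 3 * C * ε ≤ 3 * C * (ε₀ / (6 * C)) := by gcongr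
    have h7 : 3 * C * (ε₀ / (6 * C)) = ε₀ / 2 := by
      field_simp
      norm_num
    linarith
  -- paths
  obtain ⟨ρ₁, Λ₁, hρ₁, hΛ₁, hS₁⟩ := exists_slow s hs (κ := l₁⁻¹) hC₀ (by positivity) h2
    (ε₁ := ε / 2) (by positivity)
  obtain ⟨ρ₂, Λ₂, hρ₂, hΛ₂, hS₂⟩ := exists_slow s.swap hs.swap (κ := m₂) hC₀ (by linarith) h4
    (ε₁ := ε / 2) (by positivity)
  have hP : Pinched f ε₀ C A B (q / τ - 1) (p / τ - 1) ε CB (ε / 2) (min ρ₁ ρ₂)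
      (max Λ₁ Λ₂) :=
    { A_pos := hA0
      B_pos := hB0
      a_nonneg := ha
      b_nonneg := hb
      ab_lt := hab
      dec := hD
      dec' := hD'
      ε_pos := hε0
      ε_lt := hεlt
      br := hBr.mono hε0 (min_le_left _ _) le_rfl
      ε₁_pos := by positivity
      ε₁_le := by linarith
      ρ_pos := lt_min hρ₁ hρ₂
      Λ_nonneg := hΛ₁.trans (le_max_left _ _)
      slow := by
        rw [eA']
        exact hS₁.mono (min_le_left _ _) (le_max_left _ _) (by positivity)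
      slow' := by
        rw [eB']
        exact hS₂.mono (min_le_right _ _) (le_max_right _ _) (by linarith) }
  exact hP.gps x y

end Abstract

section Manifold

variable {V : Type*} [NormedAddCommGroup V] [NormedSpace ℝ V] [FiniteDimensional ℝ V] {N : ℕ}
  {M : Type*} [MetricSpace M] [CompactSpace M]
  [ChartedSpace V M] [IsManifold 𝓘(ℝ, V) ∞ M]
  [RiemannianBundle (fun x : M => TangentSpace 𝓘(ℝ, V) x)]
  [IsContinuousRiemannianBundle V (fun x : M => TangentSpace 𝓘(ℝ, V) x)]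

open Gen Mfd

/-- Rates of the derivative on an invariant bundle, seen in the ambient space. -/
theorem rate_transfer (E : Emb M (EuclideanSpace ℝ (Fin N)))
    (he : ContMDiff 𝓘(ℝ, V) (𝓡 N) ∞ E.e)
    (hinj : ∀ x, Injective (mfderiv 𝓘(ℝ, V) (𝓡 N) E.e x))
    (hP : ∀ x, E.P x = Gen.KF V E.e E.e x)
    {h : M → M} (hh : ContMDiff 𝓘(ℝ, V) 𝓘(ℝ, V) 1 h)
    {D : M → EuclideanSpace ℝ (Fin N) →L[ℝ] EuclideanSpace ℝ (Fin N)} (hD : HasD E h D)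
    {F : ∀ x : M, Submodule ℝ (TangentSpace 𝓘(ℝ, V) x)}
    {Q : M → EuclideanSpace ℝ (Fin N) →L[ℝ] EuclideanSpace ℝ (Fin N)} {K : ℝ} (hK : 0 ≤ K)
    (hQ : ∀ x, ‖Q x‖ ≤ K)
    (hF : ∀ x, (Q x).range = (F x).map (mfderiv 𝓘(ℝ, V) (𝓡 N) E.e x).toLinearMap)
    {C κ : ℝ} (hC : 0 ≤ C) (hκ : 0 ≤ κ)
    (H : ∀ (k : ℕ) (x : M), ∀ v ∈ F x,
      ‖mfderiv 𝓘(ℝ, V) 𝓘(ℝ, V) (h^[k]) x v‖ ≤ C * κ ^ k * ‖v‖) :
    ∃ C' : ℝ, 0 ≤ C' ∧ ∀ (k : ℕ) (x : M) (w : EuclideanSpace ℝ (Fin N)),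
      ‖iterD D h k x (Q x w)‖ ≤ C' * κ ^ k * ‖w‖ := by
  obtain ⟨c₀, C₁, hc₀, hC₁, hn⟩ := exists_norm_bounds E.e he hinj
  have hinj' : ∀ x, Injective (dF V E.e x) := hinj
  have hn' : ∀ x (v : TangentSpace 𝓘(ℝ, V) x), c₀ * ‖v‖ ≤ ‖dE V E.e x v‖ ∧
      ‖dE V E.e x v‖ ≤ C₁ * ‖v‖ := by
    intro x v
    have h1 := hn x v
    rw [norm_tangentSpace_vectorSpace] at h1
    exact h1
  have hDd : ∀ x (u : TangentSpace 𝓘(ℝ, V) x), D x (dE V E.e x u) =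
      dE V E.e (h x) (mfderiv 𝓘(ℝ, V) 𝓘(ℝ, V) h x u) := by
    intro x u
    have he1 : ContMDiff 𝓘(ℝ, V) (𝓡 N) 1 E.e := he.of_le (by exact_mod_cast le_top)
    have h3 := mfderiv_comp (I := 𝓘(ℝ, V)) (I' := 𝓘(ℝ, V)) (I'' := 𝓡 N) (f := h) x
      (he1.mdifferentiable (by norm_num) (h x)) (hh.mdifferentiable (by norm_num) x)
    rw [HasD_eq_KF E he hinj hP hh hD x]
    refine (KF_apply hinj' x u).trans ?_
    unfold dF
    rw [h3]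
    rfl
  refine ⟨C₁ * C * (1 / c₀) * K, by positivity, fun k x w => ?_⟩
  have hw : Q x w ∈ (Q x).range := ⟨w, rfl⟩
  have hw' := hw
  rw [hF x] at hw'
  obtain ⟨v, hv, hvw⟩ := hw'
  have hvw' : dE V E.e x v = Q x w := hvw
  have hit : iterD D h k x (dE V E.e x v) =
      dE V E.e (h^[k] x) (mfderiv 𝓘(ℝ, V) 𝓘(ℝ, V) (h^[k]) x v) := iterD_dE he hh hDd k x v
  have h1 := H k x v hv
  have h2 : ‖v‖ ≤ 1 / c₀ * ‖Q x w‖ := by
    rw [← hvw', one_div, inv_mul_eq_div, le_div_iff₀ hc₀, mul_comm]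
    exact (hn' x v).1
  have h3 : ‖Q x w‖ ≤ K * ‖w‖ :=
    ((Q x).le_opNorm w).trans (mul_le_mul_of_nonneg_right (hQ x) (norm_nonneg _))
  have hκk : 0 ≤ κ ^ k := pow_nonneg hκ k
  rw [← hvw', hit]
  calc ‖dE V E.e (h^[k] x) (mfderiv 𝓘(ℝ, V) 𝓘(ℝ, V) (h^[k]) x v)‖
      ≤ C₁ * ‖mfderiv 𝓘(ℝ, V) 𝓘(ℝ, V) (h^[k]) x v‖ := (hn' _ _).2
    _ ≤ C₁ * (C * κ ^ k * ‖v‖) := by gcongr
    _ ≤ C₁ * (C * κ ^ k * (1 / c₀ * (K * ‖w‖))) := by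
        have h4 : ‖v‖ ≤ 1 / c₀ * (K * ‖w‖) := h2.trans (by gcongr)
        gcongr
    _ = _ := by ring

/-- Bounds for the growth and the contraction of the two bundles of an Anosov diffeomorphism:
the rates of the stable bundle lie in `[l₁, l₂]`, those of the unstable bundle in `[m₁, m₂]`. -/
structure RateBounds {M : Type*} [TopologicalSpace M] [ChartedSpace V M]
    [RiemannianBundle (fun x : M => TangentSpace 𝓘(ℝ, V) x)]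
    (f : M ≃ₘ^1⟮𝓘(ℝ, V), 𝓘(ℝ, V)⟯ M)
    (Es Eu : ∀ x : M, Submodule ℝ (TangentSpace 𝓘(ℝ, V) x)) (C l₁ l₂ m₁ m₂ : ℝ) : Prop where
  s_fwd : ∀ (k : ℕ) (x : M), ∀ v ∈ Es x,
    ‖mfderiv 𝓘(ℝ, V) 𝓘(ℝ, V) ((⇑f)^[k]) x v‖ ≤ C * l₂ ^ k * ‖v‖
  s_bwd : ∀ (k : ℕ) (x : M), ∀ v ∈ Es x,
    ‖mfderiv 𝓘(ℝ, V) 𝓘(ℝ, V) ((⇑f.symm)^[k]) x v‖ ≤ C * l₁⁻¹ ^ k * ‖v‖
  u_bwd : ∀ (k : ℕ) (x : M), ∀ v ∈ Eu x,
    ‖mfderiv 𝓘(ℝ, V) 𝓘(ℝ, V) ((⇑f.symm)^[k]) x v‖ ≤ C * m₁⁻¹ ^ k * ‖v‖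
  u_fwd : ∀ (k : ℕ) (x : M), ∀ v ∈ Eu x,
    ‖mfderiv 𝓘(ℝ, V) 𝓘(ℝ, V) ((⇑f)^[k]) x v‖ ≤ C * m₂ ^ k * ‖v‖

theorem mfd_double [ConnectedSpace M] (e : M → EuclideanSpace ℝ (Fin N)) (hiso : Isometry e)
    (he : ContMDiff 𝓘(ℝ, V) (𝓡 N) ∞ e)
    (hinj : ∀ x, Injective (mfderiv 𝓘(ℝ, V) (𝓡 N) e x))
    (f : M ≃ₘ^1⟮𝓘(ℝ, V), 𝓘(ℝ, V)⟯ M)
    (Es Eu : ∀ x : M, Submodule ℝ (TangentSpace 𝓘(ℝ, V) x)) (hA : Gen.IsAnosovSplitting f Es Eu)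
    {C l₁ l₂ m₁ m₂ : ℝ} (hl₁ : 0 < l₁) (hl : l₁ ≤ l₂) (hl₂ : l₂ < 1)
    (hm₁ : 1 < m₁) (hm : m₁ ≤ m₂) (hR : RateBounds f Es Eu C l₁ l₂ m₁ m₂)
    (hpinch : (Real.log l₁ / Real.log l₂ - 1) * (Real.log m₂ / Real.log m₁ - 1) < 1) :
    TopTransitive f := by
  obtain ⟨E, hE, hEP, hr⟩ := Gen.exists_emb e hiso he hinj
  subst hE
  obtain ⟨s, hs, hsS, hsU⟩ := Gen.exists_split E he hinj hr f Es Eu hA
  obtain ⟨K, hK1, hK⟩ := s.exists_bdd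
  have hK0 : 0 ≤ K := by linarith
  have hC0 : 0 ≤ max C 0 := le_max_right _ _
  have hup : ∀ {κ : ℝ} (k : ℕ) {t u : ℝ}, 0 ≤ κ → 0 ≤ t → u ≤ C * κ ^ k * t →
      u ≤ max C 0 * κ ^ k * t := by
    intro κ k t u hκ ht h
    refine h.trans ?_
    have : 0 ≤ κ ^ k := pow_nonneg hκ k
    gcongr
    exact le_max_left _ _
  have hl₂0 : 0 ≤ l₂ := (hl₁.trans_le hl).le
  obtain ⟨C₁, hC₁, H₁⟩ := rate_transfer E he hinj hEP f.contMDiff s.hD hK0 (fun x => (hK x).1)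
    hsS hC0 hl₂0 (fun k x v hv => hup k hl₂0 (norm_nonneg _) (hR.s_fwd k x v hv))
  obtain ⟨C₂, hC₂, H₂⟩ := rate_transfer E he hinj hEP f.symm.contMDiff s.hDi hK0
    (fun x => (hK x).1) hsS hC0 (inv_nonneg.2 hl₁.le)
    (fun k x v hv => hup k (inv_nonneg.2 hl₁.le) (norm_nonneg _) (hR.s_bwd k x v hv))
  obtain ⟨C₃, hC₃, H₃⟩ := rate_transfer E he hinj hEP f.symm.contMDiff s.hDi hK0
    (fun x => (hK x).2) hsU hC0 (inv_nonneg.2 (by linarith : (0 : ℝ) ≤ m₁))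
    (fun k x v hv => hup k (inv_nonneg.2 (by linarith)) (norm_nonneg _) (hR.u_bwd k x v hv))
  obtain ⟨C₄, hC₄, H₄⟩ := rate_transfer E he hinj hEP f.contMDiff s.hD hK0 (fun x => (hK x).2)
    hsU hC0 (by linarith : (0 : ℝ) ≤ m₂)
    (fun k x v hv => hup k (by linarith) (norm_nonneg _) (hR.u_fwd k x v hv))
  set C' : ℝ := max (max C₁ C₂) (max C₃ C₄) with hC'
  have hC'0 : 0 ≤ C' := hC₁.trans ((le_max_left _ _).trans (le_max_left _ _))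
  have hup' : ∀ {κ c : ℝ} (k : ℕ) {t u : ℝ}, c ≤ C' → 0 ≤ κ → 0 ≤ t → u ≤ c * κ ^ k * t →
      u ≤ C' * κ ^ k * t := by
    intro κ c k t u hc hκ ht h
    refine h.trans ?_
    have : 0 ≤ κ ^ k := pow_nonneg hκ k
    gcongr
  have hgps := split_gps s hs hC'0 hl₁ hl hl₂ hm₁ hm
    (fun k x w => hup' k ((le_max_left _ _).trans (le_max_left _ _)) hl₂0 (norm_nonneg _)
      (H₁ k x w))
    (fun k x w => hup' k ((le_max_right _ _).trans (le_max_left _ _)) (inv_nonneg.2 hl₁.le)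
      (norm_nonneg _) (H₂ k x w))
    (fun k x w => hup' k ((le_max_left _ _).trans (le_max_right _ _))
      (inv_nonneg.2 (by linarith)) (norm_nonneg _) (H₃ k x w))
    (fun k x w => hup' k ((le_max_right _ _).trans (le_max_right _ _)) (by linarith)
      (norm_nonneg _) (H₄ k x w)) hpinch
  exact topTransitive_of_shadowing (s.shadowing hs) (chainTransitive_of_gps hgps)

end Manifold

end Pool.Agent.Lib.MP610fe3.H6
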