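import Pool.Agent.Lib.MP_610fe3_an.H6.Rect

/-!
# Extension of rectangles over a longer bottom line
-/

open Set Filter Function
open scoped Topology

namespace Pool.Agent.Lib.MP610fe3.H6

open Cf

variable {M : Type*} [MetricSpace M] {f : M ≃ₜ M}

/-- Points of intersection of local stable and unstable sets depend continuously on the data. -/
theorem br_continuousOn [CompactSpace M] {ε₁ C : ℝ} (hB : Br f ε₁ C) {D : Set (M × M)}
    {g : M × M → M} (hg : ∀ p ∈ D, g p ∈ Wl f ε₁ p.1 ∧ g p ∈ Wl f.symm ε₁ p.2) :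
    ContinuousOn g D := by
  intro p hp
  refine tendsto_nhds_of_unique_mapClusterPt fun z hz => ?_
  obtain ⟨U, hU, hUz⟩ := mapClusterPt_iff_ultrafilter.1 hz
  have h0 : Tendsto (fun q : M × M => q) U (𝓝 p) := hU.trans nhdsWithin_le_nhds
  have hD : ∀ᶠ q in (U : Filter (M × M)), q ∈ D := hU self_mem_nhdsWithin
  have h1 : Tendsto (fun q : M × M => (q.1, g q)) U (𝓝 (p.1, z)) :=
    ((continuous_fst.tendsto p).comp h0).prodMk_nhds hUz
  have h2 : Tendsto (fun q : M × M => (q.2, g q)) U (𝓝 (p.2, z)) :=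
    ((continuous_snd.tendsto p).comp h0).prodMk_nhds hUz
  have h3 : (p.1, z) ∈ {q : M × M | q.2 ∈ Wl f ε₁ q.1} :=
    (isClosed_Wl_prod f ε₁).mem_of_tendsto h1 (hD.mono fun q hq => (hg q hq).1)
  have h4 : (p.2, z) ∈ {q : M × M | q.2 ∈ Wl f.symm ε₁ q.1} :=
    (isClosed_Wl_prod f.symm ε₁).mem_of_tendsto h2 (hD.mono fun q hq => (hg q hq).2)
  exact hB.unique p.1 p.2 z (g p) h3 h4 (hg p hp).1 (hg p hp).2

theorem exists_pow_le {C ν ε δ : ℝ} (hν : 0 < ν) (hν1 : ν < 1) (hδ : 0 < δ) :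
    ∃ m : ℕ, C * ν ^ m * ε ≤ δ := by
  have h := ((tendsto_pow_atTop_nhds_zero_of_lt_one hν.le hν1).const_mul C).mul_const ε
  rw [mul_zero, zero_mul] at h
  obtain ⟨m, hm⟩ := (h.eventually (gt_mem_nhds hδ)).exists
  exact ⟨m, hm.le⟩

/-- A rectangle whose vertical lines are short at the time `N₀` can be extended by a fixed
amount. -/
theorem exists_ext [CompactSpace M] {ε₀ C ν θ ε ε₁ CB : ℝ} (hD : Dec f ε₀ C ν)
    (hD' : Dec f.symm ε₀ C θ) (hε : 0 < ε) (hεε₀ : ε ≤ ε₀) (hB : Br f ε CB) (hε₁ : 0 < ε₁)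
    (hε₁ε : 2 * ε₁ ≤ ε) {x σ : ℝ → M} (hx : ContinuousOn x (Icc 0 1))
    {Λ κ : ℝ} (hΛ : 0 ≤ Λ) (hκ : 1 ≤ κ)
    (hgrow : ∀ n : ℕ, ∀ t ∈ Icc (0 : ℝ) 1, ∀ t' ∈ Icc (0 : ℝ) 1,
      dist (f^[n] (x t)) (f^[n] (x t')) ≤ Λ * κ ^ n * |t - t'|)
    (hmut : ∀ t ∈ Icc (0 : ℝ) 1, ∀ t' ∈ Icc (0 : ℝ) 1, x t ∈ Wl f.symm ε₁ (x t'))
    (N₀ : ℕ) : ∃ η : ℝ, 0 < η ∧ ∀ (T T' : ℝ) (R : ℝ × ℝ → M), 0 ≤ T → T ≤ T' → T' ≤ T + η →
      T' ≤ 1 → Rct f ε R 1 T →
      (∀ n ≥ N₀, ∀ t ∈ Icc (0 : ℝ) T, ∀ s ∈ Icc (0 : ℝ) 1, ∀ s' ∈ Icc (0 : ℝ) 1,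
        dist (f^[n] (R (s, t))) (f^[n] (R (s', t))) ≤ ε) →
      (∀ s ∈ Icc (0 : ℝ) 1, R (s, 0) = σ s) → (∀ t ∈ Icc (0 : ℝ) T, R (0, t) = x t) →
      ∃ R' : ℝ × ℝ → M, Rct f ε R' 1 T' ∧ (∀ s ∈ Icc (0 : ℝ) 1, R' (s, 0) = σ s) ∧
        (∀ t ∈ Icc (0 : ℝ) T', R' (0, t) = x t) := by
  classical
  have hC := hD.one_le
  obtain ⟨δ, hδ, hex⟩ := hB.exist ε₁ hε₁
  obtain ⟨m₀, hm₀⟩ := exists_pow_le (C := C) (ε := ε) hD.l_pos hD.l_lt
    (show (0 : ℝ) < δ / 2 by positivity)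
  obtain ⟨N₁, hN₁⟩ : ∃ N₁ : ℕ, N₁ = N₀ + m₀ := ⟨_, rfl⟩
  have hΛκ : 0 ≤ Λ * κ ^ N₁ := by positivity
  refine ⟨min (δ / 4) ε₁ / (Λ * κ ^ N₁ + 1), by positivity, ?_⟩
  intro T T' R hT hTT' hT'η hT'1 hR hver hl hb
  set η : ℝ := min (δ / 4) ε₁ / (Λ * κ ^ N₁ + 1) with hη
  have hη1 : Λ * κ ^ N₁ * η ≤ min (δ / 4) ε₁ := by
    rw [hη, mul_div_assoc', div_le_iff₀ (by positivity)]
    have : 0 < min (δ / 4) ε₁ := by positivity
    nlinarith
  have hT1 : T ≤ 1 := hTT'.trans hT'1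
  have hTI : T ∈ Icc (0 : ℝ) T := ⟨hT, le_rfl⟩
  have hTI1 : T ∈ Icc (0 : ℝ) 1 := ⟨hT, hT1⟩
  have h01 : (0 : ℝ) ∈ Icc (0 : ℝ) 1 := ⟨le_rfl, zero_le_one⟩
  -- the local product at time `N₁`
  set q : ℝ → M := fun t => f^[N₁] (x t) with hq
  set a : ℝ → M := fun s => f^[N₁] (R (s, T)) with ha
  have ha0 : a 0 = q T := by
    simp only [ha, hq, hb T hTI]
  have hqd : ∀ t ∈ Icc T T', dist (q t) (q T) ≤ min (δ / 4) ε₁ := by
    intro t ht
    refine (hgrow N₁ t ⟨hT.trans ht.1, ht.2.trans hT'1⟩ T hTI1).trans (le_trans ?_ hη1)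
    refine mul_le_mul_of_nonneg_left ?_ hΛκ
    rw [abs_of_nonneg (by linarith [ht.1])]
    linarith [ht.2]
  have had : ∀ s ∈ Icc (0 : ℝ) 1, dist (q T) (a s) ≤ δ / 2 := by
    intro s hs
    have h1 : f^[N₀] (R (s, T)) ∈ Wl f ε (f^[N₀] (R (0, T))) := by
      intro k
      rw [← iterate_add_apply, ← iterate_add_apply]
      exact hver (k + N₀) (by omega) T hTI s hs 0 h01
    have h2 := hD.dec _ _ (Wl_mono hεε₀ h1) m₀
    rw [← iterate_add_apply, ← iterate_add_apply, add_comm m₀ N₀, ← hN₁] at h2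
    rw [dist_comm, ← ha0]
    refine h2.trans (le_trans ?_ hm₀)
    have h3 : 0 ≤ C * ν ^ m₀ := mul_nonneg (by linarith) (pow_nonneg hD.l_pos.le _)
    exact mul_le_mul_of_nonneg_left (Wl_dist h1) h3
  have hqa : ∀ t ∈ Icc T T', ∀ s ∈ Icc (0 : ℝ) 1, dist (q t) (a s) < δ := by
    intro t ht s hs
    have h1 := dist_triangle (q t) (q T) (a s)
    have h2 := hqd t ht
    have h3 := had s hs
    have h4 : min (δ / 4) ε₁ ≤ δ / 4 := min_le_left _ _
    linarith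
  set g : M × M → M := fun p => if h : dist p.1 p.2 < δ then (hex p.1 p.2 h).choose else p.1
    with hg
  have hgs : ∀ p : M × M, dist p.1 p.2 < δ → g p ∈ Wl f ε₁ p.1 ∧ g p ∈ Wl f.symm ε₁ p.2 := by
    intro p hp
    simp only [hg, dif_pos hp]
    exact (hex p.1 p.2 hp).choose_spec
  have hε₁ε' : ε₁ ≤ ε := by linarith
  have hBr : Br f ε₁ CB := hB.mono hε₁ hε₁ε' le_rfl
  have hgc : ContinuousOn g {p : M × M | dist p.1 p.2 < δ} :=
    br_continuousOn hBr fun p hp => hgs p hp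
  set z : ℝ × ℝ → M := fun p => g (q p.2, a p.1) with hz
  have hzs : ∀ s ∈ Icc (0 : ℝ) 1, ∀ t ∈ Icc T T', z (s, t) ∈ Wl f ε₁ (q t) ∧
      z (s, t) ∈ Wl f.symm ε₁ (a s) := fun s hs t ht => hgs (q t, a s) (hqa t ht s hs)
  have hzT : ∀ s ∈ Icc (0 : ℝ) 1, z (s, T) = a s := by
    intro s hs
    have h1 := hzs s hs T ⟨le_rfl, hTT'⟩
    have h2 : a s ∈ Wl f ε (q T) := by
      intro k
      rw [← ha0, ← iterate_add_apply, ← iterate_add_apply]
      exact hver (k + N₁) (by omega) T hTI s hs 0 h01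
    exact hB.unique (q T) (a s) _ _ (Wl_mono hε₁ε' h1.1) (Wl_mono hε₁ε' h1.2) h2
      (mem_Wl_self hε.le)
  have hz0 : ∀ t ∈ Icc T T', z (0, t) = q t := by
    intro t ht
    have h1 := hzs 0 h01 t ht
    have ht1 : t ∈ Icc (0 : ℝ) 1 := ⟨hT.trans ht.1, ht.2.trans hT'1⟩
    have h2 : q t ∈ Wl f.symm ε₁ (a 0) := by
      rw [ha0]
      intro k
      rcases le_total k N₁ with hk | hk
      · simp only [hq]
        rw [symm_iterate_iterate_of_le f hk, symm_iterate_iterate_of_le f hk]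
        refine (hgrow (N₁ - k) t ht1 T hTI1).trans ?_
        have h3 : κ ^ (N₁ - k) ≤ κ ^ N₁ := pow_le_pow_right₀ hκ (Nat.sub_le _ _)
        have h4 : |t - T| ≤ η := by
          rw [abs_of_nonneg (by linarith [ht.1])]
          linarith [ht.2]
        calc Λ * κ ^ (N₁ - k) * |t - T| ≤ Λ * κ ^ N₁ * η := by gcongr
          _ ≤ min (δ / 4) ε₁ := hη1
          _ ≤ ε₁ := min_le_right _ _
      · obtain ⟨j, rfl⟩ := Nat.exists_eq_add_of_le hk
        simp only [hq]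
        rw [add_comm N₁ j, iterate_add_apply, iterate_add_apply, symm_iterate_iterate,
          symm_iterate_iterate]
        exact hmut t ht1 T hTI1 j
    exact hBr.unique (q t) (a 0) _ _ h1.1 h1.2 (mem_Wl_self hε₁.le) h2
  -- the new rectangle
  set R' : ℝ × ℝ → M := fun p => if p.2 ≤ T then R p else f.symm^[N₁] (z p) with hR'
  have hold : ∀ s t, t ≤ T → R' (s, t) = R (s, t) := by
    intro s t ht
    simp only [hR', if_pos ht]
  have hnew : ∀ s ∈ Icc (0 : ℝ) 1, ∀ t ∈ Icc T T', f^[N₁] (R' (s, t)) = z (s, t) := by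
    intro s hs t ht
    rcases eq_or_lt_of_le ht.1 with h | h
    · subst h
      rw [hold s _ le_rfl, hzT s hs]
    · simp only [hR', if_neg (not_le.2 h)]
      exact iterate_symm_iterate f N₁ _
  have hnew' : ∀ s ∈ Icc (0 : ℝ) 1, ∀ t ∈ Icc T T', R' (s, t) = f.symm^[N₁] (z (s, t)) := by
    intro s hs t ht
    rw [← hnew s hs t ht, symm_iterate_iterate]
  -- continuity
  have hqc : ContinuousOn q (Icc 0 1) := (f.continuous.iterate N₁).comp_continuousOn hx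
  have hac : ContinuousOn a (Icc 0 1) := by
    refine (f.continuous.iterate N₁).comp_continuousOn ?_
    exact hR.cont.comp (by fun_prop) fun s hs => ⟨hs, hTI⟩
  have hzc : ContinuousOn z (Icc 0 1 ×ˢ Icc T T') := by
    refine hgc.comp (t := {p : M × M | dist p.1 p.2 < δ}) ?_ ?_
    · refine ContinuousOn.prodMk ?_ ?_
      · exact hqc.comp continuous_snd.continuousOn
          fun p hp => ⟨hT.trans hp.2.1, hp.2.2.trans hT'1⟩
      · exact hac.comp continuous_fst.continuousOn fun p hp => hp.1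
    · intro p hp
      exact hqa p.2 hp.2 p.1 hp.1
  have hcont : ContinuousOn R' (Icc 0 1 ×ˢ Icc 0 T') := by
    have hU : (Icc (0 : ℝ) 1 ×ˢ Icc (0 : ℝ) T') =
        (Icc (0 : ℝ) 1 ×ˢ Icc (0 : ℝ) T) ∪ (Icc (0 : ℝ) 1 ×ˢ Icc T T') := by
      rw [← prod_union, Icc_union_Icc_eq_Icc hT hTT']
    rw [hU]
    refine ContinuousOn.union_of_isClosed ?_ ?_ (isClosed_Icc.prod isClosed_Icc)
      (isClosed_Icc.prod isClosed_Icc)
    · exact hR.cont.congr fun p hp => hold p.1 p.2 hp.2.2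
    · refine ((f.symm.continuous.iterate N₁).comp_continuousOn hzc).congr fun p hp => ?_
      exact hnew' p.1 hp.1 p.2 hp.2
  refine ⟨R', ⟨hcont, ?_, ?_⟩, ?_, ?_⟩
  · -- horizontal lines
    obtain ⟨N', hN'⟩ := hR.hor
    have hC' := hD'.one_le
    obtain ⟨m₁, hm₁⟩ := exists_pow_le (C := C) (ε := ε) hD'.l_pos hD'.l_lt
      (show (0 : ℝ) < ε / 2 by positivity)
    have key : ∀ n ≥ N' + m₁, ∀ s ∈ Icc (0 : ℝ) 1, ∀ t ∈ Icc (0 : ℝ) T',
        dist (f.symm^[n] (R' (s, t))) (f.symm^[n] (R (s, T))) ≤ ε / 2 := by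
      intro n hn s hs t ht
      rcases le_total t T with htT | htT
      · rw [hold s t htT]
        have h1 : f.symm^[N'] (R (s, t)) ∈ Wl f.symm ε (f.symm^[N'] (R (s, T))) := by
          intro k
          rw [← iterate_add_apply, ← iterate_add_apply]
          exact hN' (k + N') (by omega) s hs t ⟨ht.1, htT⟩ T hTI
        obtain ⟨j, rfl⟩ : ∃ j, n = (m₁ + j) + N' := ⟨n - N' - m₁, by omega⟩
        have h2 := hD'.dec _ _ (Wl_mono hεε₀ h1) (m₁ + j)
        rw [← iterate_add_apply, ← iterate_add_apply] at h2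
        refine h2.trans (le_trans ?_ hm₁)
        have h3 : θ ^ (m₁ + j) ≤ θ ^ m₁ :=
          pow_le_pow_of_le_one hD'.l_pos.le hD'.l_lt.le (Nat.le_add_right _ _)
        have h4 : 0 ≤ θ ^ m₁ := pow_nonneg hD'.l_pos.le _
        have h5 := Wl_dist h1
        have h6 : 0 ≤ θ ^ (m₁ + j) := pow_nonneg hD'.l_pos.le _
        gcongr
      · have htI : t ∈ Icc T T' := ⟨htT, ht.2⟩
        have h1 := (hzs s hs t htI).2
        have h2 := hD'.dec _ _ (Wl_mono (hε₁ε'.trans hεε₀) h1) (n + N₁)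
        rw [← hnew s hs t htI, iterate_add_apply, iterate_add_apply, symm_iterate_iterate] at h2
        simp only [ha] at h2
        rw [symm_iterate_iterate] at h2
        refine h2.trans (le_trans ?_ hm₁)
        have h3 : θ ^ (n + N₁) ≤ θ ^ m₁ :=
          pow_le_pow_of_le_one hD'.l_pos.le hD'.l_lt.le (by omega)
        have h4 : 0 ≤ θ ^ m₁ := pow_nonneg hD'.l_pos.le _
        have h5 : dist (f^[N₁] (R' (s, t))) (f^[N₁] (R (s, T))) ≤ ε := by
          have h7 := Wl_dist h1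
          rw [← hnew s hs t htI] at h7
          exact h7.trans hε₁ε'
        have h6 : 0 ≤ θ ^ (n + N₁) := pow_nonneg hD'.l_pos.le _
        gcongr
    refine ⟨N' + m₁, fun n hn s hs t ht t' ht' => ?_⟩
    have h1 := key n hn s hs t ht
    have h2 := key n hn s hs t' ht'
    have h3 := dist_triangle_right (f.symm^[n] (R' (s, t))) (f.symm^[n] (R' (s, t')))
      (f.symm^[n] (R (s, T)))
    linarith
  · -- vertical lines
    refine ⟨N₁, fun n hn t ht s hs s' hs' => ?_⟩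
    rcases le_total t T with htT | htT
    · rw [hold s t htT, hold s' t htT]
      exact hver n (by omega) t ⟨ht.1, htT⟩ s hs s' hs'
    · have htI : t ∈ Icc T T' := ⟨htT, ht.2⟩
      obtain ⟨j, rfl⟩ := Nat.exists_eq_add_of_le hn
      rw [add_comm N₁ j, iterate_add_apply, iterate_add_apply, hnew s hs t htI,
        hnew s' hs' t htI]
      have h1 := (hzs s hs t htI).1 j
      have h2 := (hzs s' hs' t htI).1 j
      have h3 := dist_triangle_right (f^[j] (z (s, t))) (f^[j] (z (s', t))) (f^[j] (q t))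
      linarith
  · intro s hs
    rw [hold s 0 hT]
    exact hl s hs
  · intro t ht
    rcases le_total t T with htT | htT
    · rw [hold 0 t htT]
      exact hb t ⟨ht.1, htT⟩
    · have htI : t ∈ Icc T T' := ⟨htT, ht.2⟩
      rw [hnew' 0 h01 t htI, hz0 t htI]
      exact symm_iterate_iterate f N₁ _

end Pool.Agent.Lib.MP610fe3.H6
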