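import Pool.Agent.Lib.MP_610fe3_an.Cf.Basic

/-!
# Rectangles with stable vertical and unstable horizontal lines

The two sides of a rectangle control each other: if all vertical lines are short at time `N` then
the horizontal lines are short at time `-n`, as soon as the number of steps of the bottom line at
time `N` is compensated by the contraction of unstable sets in `N + n` steps.
-/

open Set Filter Function
open scoped Topology

namespace Pool.Agent.Lib.MP610fe3.H6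

open Cf

variable {M : Type*} [MetricSpace M]

/-- Rectangles: the vertical lines `s ↦ R (s, t)` lie in stable sets, the horizontal lines
`t ↦ R (s, t)` in unstable sets. -/
structure Rct (f : M ≃ₜ M) (ε : ℝ) (R : ℝ × ℝ → M) (S T : ℝ) : Prop where
  cont : ContinuousOn R (Icc 0 S ×ˢ Icc 0 T)
  hor : ∃ N : ℕ, ∀ n ≥ N, ∀ s ∈ Icc (0 : ℝ) S, ∀ t ∈ Icc (0 : ℝ) T, ∀ t' ∈ Icc (0 : ℝ) T,
    dist (f.symm^[n] (R (s, t))) (f.symm^[n] (R (s, t'))) ≤ ε
  ver : ∃ N : ℕ, ∀ n ≥ N, ∀ t ∈ Icc (0 : ℝ) T, ∀ s ∈ Icc (0 : ℝ) S, ∀ s' ∈ Icc (0 : ℝ) S,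
    dist (f^[n] (R (s, t))) (f^[n] (R (s', t))) ≤ ε

variable {f : M ≃ₜ M} {ε ε₀ C θ S T : ℝ} {R : ℝ × ℝ → M}

theorem Rct.swap (h : Rct f ε R S T) : Rct f.symm ε (fun p => R (p.2, p.1)) T S where
  cont := h.cont.comp (by fun_prop) (fun _ hp => ⟨hp.2, hp.1⟩)
  hor := h.ver
  ver := h.hor

theorem Rct.contH (h : Rct f ε R S T) {s : ℝ} (hs : s ∈ Icc (0 : ℝ) S) :
    ContinuousOn (fun t => R (s, t)) (Icc 0 T) :=
  h.cont.comp (by fun_prop) (fun _ ht => ⟨hs, ht⟩)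

/-- A short piece of a horizontal line at time `N` is contained in a local unstable set. -/
theorem Rct.mem_loc (hD : Dec f.symm ε₀ C θ) (hε : 0 < ε) (hε₀ : 3 * C * ε < ε₀)
    (h : Rct f ε R S T) {N : ℕ} {s : ℝ} (hs : s ∈ Icc (0 : ℝ) S) {a b : ℝ} (hab : a ≤ b)
    (ha : 0 ≤ a) (hb : b ≤ T)
    (hclose : ∀ τ ∈ Icc a b, dist (f^[N] (R (s, τ))) (f^[N] (R (s, a))) ≤ 3 * ε) :
    f^[N] (R (s, b)) ∈ Wl f.symm ε₀ (f^[N] (R (s, a))) := by
  obtain ⟨N', hN'⟩ := h.hor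
  have hC := hD.one_le
  have hεε₀ : ε ≤ ε₀ := by nlinarith
  have hsub : Icc a b ⊆ Icc (0 : ℝ) T := Icc_subset_Icc ha hb
  have haT : a ∈ Icc (0 : ℝ) T := hsub ⟨le_rfl, hab⟩
  have hcT : ContinuousOn (fun t => R (s, t)) (Icc a b) := (h.contH hs).mono hsub
  -- the far past
  have hfar : ∀ τ ∈ Icc a b, ∀ k, N + N' ≤ k →
      dist (f.symm^[k] (f^[N] (R (s, τ)))) (f.symm^[k] (f^[N] (R (s, a)))) ≤ ε₀ := by
    intro τ hτ k hk
    obtain ⟨j, rfl⟩ : ∃ j, k = j + N := ⟨k - N, by omega⟩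
    rw [iterate_add_apply, iterate_add_apply, symm_iterate_iterate, symm_iterate_iterate]
    exact (hN' j (by omega) s hs τ (hsub hτ) a haT).trans hεε₀
  set A : Set ℝ := {τ | τ ∈ Icc a b ∧ f^[N] (R (s, τ)) ∈ Wl f.symm ε₀ (f^[N] (R (s, a)))} with hA
  have hclosed : IsClosed (A ∩ Icc a b) := by
    have e : A ∩ Icc a b = Icc a b ∩
        (fun t => f^[N] (R (s, t))) ⁻¹' (Wl f.symm ε₀ (f^[N] (R (s, a)))) := by
      ext τ
      simp only [hA, mem_inter_iff, mem_setOf_eq, mem_preimage]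
      tauto
    rw [e]
    exact ((f.continuous.iterate N).comp_continuousOn hcT).preimage_isClosed_of_isClosed
      isClosed_Icc (isClosed_Wl _ _ _)
  have hself : f^[N] (R (s, a)) ∈ Wl f.symm ε₀ (f^[N] (R (s, a))) :=
    mem_Wl_self hD.ε_pos.le
  have hmain : Icc a b ⊆ A := by
    refine hclosed.Icc_subset_of_forall_mem_nhdsWithin ⟨⟨le_rfl, hab⟩, hself⟩ ?_
    rintro τ ⟨hτA, hτa, hτb⟩
    have hτI : τ ∈ Icc a b := hτA.1
    have hdec := hD.dec _ _ hτA.2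
    have hlt : ∀ k, dist (f.symm^[k] (f^[N] (R (s, τ)))) (f.symm^[k] (f^[N] (R (s, a)))) < ε₀ := by
      intro k
      refine lt_of_le_of_lt ((hdec k).trans ?_) hε₀
      have h1 : θ ^ k ≤ 1 := pow_le_one₀ hD.l_pos.le hD.l_lt.le
      have h2 := hclose τ hτI
      have h3 : 0 ≤ θ ^ k := pow_nonneg hD.l_pos.le k
      calc C * θ ^ k * dist (f^[N] (R (s, τ))) (f^[N] (R (s, a)))
          ≤ C * 1 * (3 * ε) := by gcongr
        _ = 3 * C * ε := by ring
    -- the finitely many remaining times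
    have hev : ∀ k, ∀ᶠ x in 𝓝[Icc a b] τ,
        dist (f.symm^[k] (f^[N] (R (s, x)))) (f.symm^[k] (f^[N] (R (s, a)))) < ε₀ := by
      intro k
      have hc : ContinuousWithinAt (fun x => dist (f.symm^[k] (f^[N] (R (s, x))))
          (f.symm^[k] (f^[N] (R (s, a))))) (Icc a b) τ := by
        have h1 : ContinuousWithinAt (fun t => R (s, t)) (Icc a b) τ := hcT τ hτI
        have h2 : Continuous fun z : M => dist (f.symm^[k] (f^[N] z))
            (f.symm^[k] (f^[N] (R (s, a)))) :=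
          (((f.symm.continuous.iterate k).comp (f.continuous.iterate N))).dist continuous_const
        exact h2.continuousAt.comp_continuousWithinAt h1
      exact hc.eventually (lt_mem_nhds' (hlt k))
    have hevall : ∀ᶠ x in 𝓝[Icc a b] τ, ∀ k ∈ Finset.range (N + N'),
        dist (f.symm^[k] (f^[N] (R (s, x)))) (f.symm^[k] (f^[N] (R (s, a)))) < ε₀ := by
      rw [Filter.eventually_all_finset]
      intro k _
      exact hev k
    have hnear : ∀ᶠ x in 𝓝[Icc a b] τ, x ∈ A := by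
      filter_upwards [hevall, self_mem_nhdsWithin] with x hx hxI
      refine ⟨hxI, fun k => ?_⟩
      rcases lt_or_ge k (N + N') with hk | hk
      · exact (hx k (Finset.mem_range.2 hk)).le
      · exact hfar x hxI k hk
    have hle : 𝓝[>] τ ≤ 𝓝[Icc a b] τ := by
      rw [← nhdsWithin_Ioc_eq_nhdsGT hτb]
      refine nhdsWithin_mono _ fun x hx => ⟨hτa.trans hx.1.le, hx.2⟩
    exact hle hnear
  exact (hmain ⟨hab, le_rfl⟩).2
where
  lt_mem_nhds' {x c : ℝ} (h : x < c) : Iio c ∈ 𝓝 x := Iio_mem_nhds h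

/-- The horizontal lines, in terms of the number of steps of the bottom line. -/
theorem Rct.hor_le (hD : Dec f.symm ε₀ C θ) (hε : 0 < ε) (hε₀ : 3 * C * ε < ε₀)
    (h : Rct f ε R S T) (hS : 0 ≤ S) (hT : T ≤ 1) {Λ κ : ℝ} (hΛ : 0 ≤ Λ) (hκ : 0 ≤ κ)
    (hbot : ∀ n : ℕ, ∀ t ∈ Icc (0 : ℝ) T, ∀ t' ∈ Icc (0 : ℝ) T,
      dist (f^[n] (R (0, t))) (f^[n] (R (0, t'))) ≤ Λ * κ ^ n * |t - t'|)
    {N : ℕ} (hN : ∀ t ∈ Icc (0 : ℝ) T, ∀ s ∈ Icc (0 : ℝ) S, ∀ s' ∈ Icc (0 : ℝ) S,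
      dist (f^[N] (R (s, t))) (f^[N] (R (s', t))) ≤ ε)
    (n : ℕ) {s : ℝ} (hs : s ∈ Icc (0 : ℝ) S) {t t' : ℝ} (ht : t ∈ Icc (0 : ℝ) T)
    (ht' : t' ∈ Icc (0 : ℝ) T) :
    dist (f.symm^[n] (R (s, t))) (f.symm^[n] (R (s, t')))
      ≤ (Λ * κ ^ N / ε + 1) * (3 * ε * C) * θ ^ (N + n) := by
  wlog htt : t ≤ t' generalizing t t'
  · rw [dist_comm]
    exact this ht' ht (le_of_not_ge htt)
  have hC := hD.one_le
  set x : ℝ := Λ * κ ^ N / ε with hx
  have hx0 : 0 ≤ x := by positivity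
  set K : ℕ := ⌊x⌋₊ + 1 with hK
  have hK1 : (K : ℝ) ≤ x + 1 := by
    rw [hK]
    push_cast
    linarith [Nat.floor_le hx0]
  have hK2 : x < K := by
    rw [hK]
    push_cast
    exact Nat.lt_floor_add_one x
  have hK0 : (0 : ℝ) < K := by
    rw [hK]; positivity
  have h0S : (0 : ℝ) ∈ Icc (0 : ℝ) S := ⟨le_rfl, hS⟩
  have hΛK : Λ * κ ^ N / K ≤ ε := by
    rw [div_le_iff₀ hK0]
    have : Λ * κ ^ N = ε * x := by rw [hx]; field_simp
    rw [this]
    exact mul_le_mul_of_nonneg_left hK2.le hε.le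
  -- short pieces
  have hshort : ∀ a ∈ Icc (0 : ℝ) T, ∀ b ∈ Icc (0 : ℝ) T, |b - a| ≤ 1 / K →
      dist (f^[N] (R (s, b))) (f^[N] (R (s, a))) ≤ 3 * ε := by
    intro a ha b hb hab
    have h1 := hN b hb s hs 0 h0S
    have h2 := hbot N b hb a ha
    have h3 := hN a ha 0 h0S s hs
    have h4 : Λ * κ ^ N * |b - a| ≤ ε := by
      have : 0 ≤ Λ * κ ^ N := by positivity
      calc Λ * κ ^ N * |b - a| ≤ Λ * κ ^ N * (1 / K) := by gcongr
        _ = Λ * κ ^ N / K := by ring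
        _ ≤ ε := hΛK
    have h5 := dist_triangle4 (f^[N] (R (s, b))) (f^[N] (R (0, b))) (f^[N] (R (0, a)))
      (f^[N] (R (s, a)))
    linarith
  have hpiece : ∀ a ∈ Icc (0 : ℝ) T, ∀ b ∈ Icc (0 : ℝ) T, a ≤ b → b - a ≤ 1 / K →
      dist (f.symm^[n] (R (s, a))) (f.symm^[n] (R (s, b))) ≤ 3 * ε * C * θ ^ (N + n) := by
    intro a ha b hb hab hab'
    have h1 : f^[N] (R (s, b)) ∈ Wl f.symm ε₀ (f^[N] (R (s, a))) := by
      refine h.mem_loc hD hε hε₀ hs hab ha.1 hb.2 fun τ hτ => ?_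
      refine hshort a ha τ ⟨ha.1.trans hτ.1, hτ.2.trans hb.2⟩ ?_
      rw [abs_of_nonneg (by linarith [hτ.1])]
      linarith [hτ.2]
    have h2 := hD.dec _ _ h1 (n + N)
    rw [iterate_add_apply, iterate_add_apply, symm_iterate_iterate, symm_iterate_iterate] at h2
    have h3 := hshort a ha b hb (by rw [abs_of_nonneg (by linarith)]; exact hab')
    rw [dist_comm]
    refine h2.trans ?_
    have h4 : 0 ≤ θ ^ (n + N) := pow_nonneg hD.l_pos.le _
    calc C * θ ^ (n + N) * dist (f^[N] (R (s, b))) (f^[N] (R (s, a)))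
        ≤ C * θ ^ (n + N) * (3 * ε) := by gcongr
      _ = 3 * ε * C * θ ^ (N + n) := by rw [add_comm n N]; ring
  -- the chain of pieces
  set c : ℕ → ℝ := fun i => t + i * ((t' - t) / K) with hc
  have hc0 : c 0 = t := by simp [hc]
  have hcK : c K = t' := by
    simp only [hc]
    field_simp
    ring
  have hstep : 0 ≤ (t' - t) / K := div_nonneg (by linarith) hK0.le
  have hcmem : ∀ i ≤ K, c i ∈ Icc (0 : ℝ) T := by
    intro i hi
    have h1 : (i : ℝ) * ((t' - t) / K) ≤ t' - t := by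
      have h2 : (i : ℝ) ≤ K := by exact_mod_cast hi
      calc (i : ℝ) * ((t' - t) / K) ≤ K * ((t' - t) / K) := by gcongr
        _ = t' - t := by field_simp
    have h3 : 0 ≤ (i : ℝ) * ((t' - t) / K) := by positivity
    exact ⟨by simp only [hc]; linarith [ht.1], by simp only [hc]; linarith [ht'.2]⟩
  have hsum := dist_le_range_sum_dist (fun i => f.symm^[n] (R (s, c i))) K
  rw [hc0, hcK] at hsum
  refine hsum.trans ?_
  have hle : ∀ i ∈ Finset.range K, dist (f.symm^[n] (R (s, c i))) (f.symm^[n] (R (s, c (i + 1))))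
      ≤ 3 * ε * C * θ ^ (N + n) := by
    intro i hi
    have hi' : i < K := Finset.mem_range.1 hi
    have h1 : c (i + 1) - c i = (t' - t) / K := by
      simp only [hc]
      push_cast
      ring
    refine hpiece _ (hcmem i hi'.le) _ (hcmem (i + 1) hi') (by linarith) ?_
    rw [h1]
    gcongr
    linarith [ht.1, ht'.2]
  refine (Finset.sum_le_sum hle).trans ?_
  rw [Finset.sum_const, Finset.card_range, nsmul_eq_mul]
  have h4 : 0 ≤ θ ^ (N + n) := pow_nonneg hD.l_pos.le _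
  calc (K : ℝ) * (3 * ε * C * θ ^ (N + n)) ≤ (x + 1) * (3 * ε * C * θ ^ (N + n)) := by gcongr
    _ = _ := by ring

end Pool.Agent.Lib.MP610fe3.H6
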